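import Mathlib

/-!
# Closed relations are lower semicontinuous at residual points; curves are meagre
-/

set_option autoImplicit false

open scoped Topology ContDiff
open Set Filter

namespace Pool.Agent.H59.ND

/-- A closed relation with locally compact second countable fibre space persists at all points
outside a meagre set. -/
theorem meagre_of_closedRel {P Y : Type*} [TopologicalSpace P] [TopologicalSpace Y] [T2Space Y]
    [SecondCountableTopology Y] [LocallyCompactSpace Y] {R : Set (P × Y)} {D : Set P}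
    (hD : IsOpen D) (hR : ∀ b ∈ closure R, b.1 ∈ D → b ∈ R) :
    IsMeagre {x | x ∈ D ∧ ∃ y, (x, y) ∈ R ∧ ∃ V ∈ 𝓝 y, ¬ ∀ᶠ x' in 𝓝 x, ∃ y' ∈ V, (x', y') ∈ R} := by
  set Bs := TopologicalSpace.countableBasis Y with hBs
  have hBc : Bs.Countable := TopologicalSpace.countable_countableBasis Y
  let C : Set Y → Set P := fun b => {x | ∃ y ∈ closure b, (x, y) ∈ closure R}
  have hC : ∀ b : Set Y, IsCompact (closure b) → IsClosed (C b) := by
    intro b hb
    rw [← isOpen_compl_iff, isOpen_iff_mem_nhds]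
    intro x hx
    have h1 : ∀ y ∈ closure b, ∀ᶠ z : P × Y in 𝓝 (x, y), (z.1, z.2) ∉ closure R := by
      intro y hy
      have h2 : (x, y) ∉ closure R := fun h => hx ⟨y, hy, h⟩
      exact isClosed_closure.isOpen_compl.mem_nhds h2
    have h3 := hb.eventually_forall_of_forall_eventually (P := fun x y => (x, y) ∉ closure R) h1
    filter_upwards [h3] with x' hx'
    rintro ⟨y, hy, hy'⟩
    exact hx' y hy hy'
  have key : IsMeagre (⋃ b ∈ {b ∈ Bs | IsCompact (closure b)}, frontier (C b)) := by
    have hcount : ({b ∈ Bs | IsCompact (closure b)}).Countable := hBc.mono fun b hb => hb.1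
    haveI := hcount.to_subtype
    rw [biUnion_eq_iUnion]
    refine isMeagre_iUnion fun b => ?_
    have h1 : IsClosed (C b) := hC b b.2.2
    have h2 : IsNowhereDense (frontier (C b.1)) := by
      rw [isClosed_frontier.isNowhereDense_iff]
      exact interior_frontier h1
    exact h2.isMeagre
  refine key.mono ?_
  rintro x ⟨hxD, y, hxy, V, hV, hbad⟩
  obtain ⟨K, hK, hKV, hKc⟩ := LocallyCompactSpace.local_compact_nhds y V hV
  obtain ⟨b, hb, hyb, hbK⟩ := (TopologicalSpace.isBasis_countableBasis Y).mem_nhds_iff.1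
    (interior_mem_nhds.2 hK)
  have hbK' : closure b ⊆ K := closure_minimal (hbK.trans interior_subset) hKc.isClosed
  have hbc : IsCompact (closure b) := hKc.of_isClosed_subset isClosed_closure hbK'
  refine mem_biUnion (show b ∈ {b ∈ Bs | IsCompact (closure b)} from ⟨hb, hbc⟩) ?_
  have h1 : x ∈ C b := ⟨y, subset_closure hyb, subset_closure hxy⟩
  rw [frontier, (hC b hbc).closure_eq]
  refine ⟨h1, fun hint => hbad ?_⟩
  filter_upwards [mem_interior_iff_mem_nhds.1 hint, hD.mem_nhds hxD] with x' hx' hx'D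
  obtain ⟨y', hy', hxy'⟩ := hx'
  exact ⟨y', hKV (hbK' hy'), hR _ hxy' hx'D⟩

/-- Smooth curves are meagre in dimension at least two. -/
theorem isMeagre_range {N : Type*} [NormedAddCommGroup N] [NormedSpace ℝ N] [FiniteDimensional ℝ N]
    (hN : 1 < Module.finrank ℝ N) {c : ℝ → N} (hc : ContDiff ℝ 1 c) : IsMeagre (range c) := by
  have h1 : Dense (range c)ᶜ :=
    hc.dense_compl_range_of_finrank_lt_finrank (by rw [Module.finrank_self]; exact hN)
  have h2 : range c = ⋃ n : ℕ, c '' Icc (-(n : ℝ)) n := by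
    ext y
    constructor
    · rintro ⟨t, rfl⟩
      obtain ⟨n, hn⟩ := exists_nat_ge |t|
      exact mem_iUnion.2 ⟨n, t, abs_le.1 hn, rfl⟩
    · intro hy
      obtain ⟨n, t, -, rfl⟩ := mem_iUnion.1 hy
      exact mem_range_self t
  rw [h2]
  refine isMeagre_iUnion fun n => ?_
  have h3 : IsClosed (c '' Icc (-(n : ℝ)) n) := (isCompact_Icc.image hc.continuous).isClosed
  have h4 : IsNowhereDense (c '' Icc (-(n : ℝ)) n) := by
    rw [h3.isNowhereDense_iff, interior_eq_empty_iff_dense_compl]
    exact h1.mono (compl_subset_compl.2 (image_subset_range _ _))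
  exact h4.isMeagre

/-- Countably many curves do not cover a neighbourhood. -/
theorem not_covered {N : Type*} [NormedAddCommGroup N] [NormedSpace ℝ N] [FiniteDimensional ℝ N]
    (hN : 1 < Module.finrank ℝ N) {q : N} {C : Set (ℝ → N)} (hC : C.Countable)
    (hs : ∀ c ∈ C, ContDiff ℝ 1 c) : ¬ ∀ᶠ q' in 𝓝 q, ∃ c ∈ C, q' ∈ range c := by
  intro h
  obtain ⟨U, hU, hUo, hqU⟩ := mem_nhds_iff.1 h
  have h1 : IsMeagre (⋃ c ∈ C, range c) := by
    haveI := hC.to_subtype
    rw [biUnion_eq_iUnion]
    exact isMeagre_iUnion fun c => isMeagre_range hN (hs c c.2)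
  refine not_isMeagre_of_isOpen hUo ⟨q, hqU⟩ (h1.mono fun x hx => ?_)
  obtain ⟨c, hc, hxc⟩ := hU hx
  exact mem_biUnion hc hxc

end Pool.Agent.H59.ND
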