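import Pool.Agent.H59.ND.Nondeg
import Pool.Agent.H59.ND.Baire
import Pool.Agent.H91.GE.Finite

/-!
# Residual pairs of points with dense pairs of directions
-/

set_option autoImplicit false

open scoped InnerProductSpace Topology ContDiff
open Set Filter

namespace Pool.Agent.H59.ND

open Pool.Agent.H91.GE Pool.Agent.H59.LV

variable {E F N : Type*} [NormedAddCommGroup E] [InnerProductSpace ℝ E] [FiniteDimensional ℝ E]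
  [NormedAddCommGroup F] [InnerProductSpace ℝ F] [FiniteDimensional ℝ F]
  [NormedAddCommGroup N] [NormedSpace ℝ N] [FiniteDimensional ℝ N]
  {S : Set E} {A : E × E → E} {K K₂ : NNReal} {Φ : ℝ → E × E → E × E}
  {Ω : Set N} {ψ : N → E} {P : E →L[ℝ] N} {W : Set E}

/-- The unit tangent bundle. -/
def UT (S : Set E) : Set (E × E) := {w | w ∈ TSet S ∧ ‖w.2‖ = 1}

/-- Topological transitivity on an open set. -/
def Trans (Φ : ℝ → E × E → E × E) (S : Set E) (O : Set (E × E)) : Prop :=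
  ∀ U V : Set (E × E), IsOpen U → IsOpen V → (∃ w ∈ U, w ∈ O ∧ w ∈ UT S) →
    (∃ w ∈ V, w ∈ O ∧ w ∈ UT S) → ∃ t : ℝ, t ≠ 0 ∧ ∃ w ∈ U, w ∈ UT S ∧ Φ t w ∈ V

theorem trans_of_dense (h : GFlow F S A K K₂ Φ) {O : Set (E × E)} {w₀ : E × E}
    (hw₀ : w₀ ∈ UT S) (hd : O ∩ UT S ⊆ closure (range fun t => Φ t w₀)) : Trans Φ S O := by
  intro U V hU hV ⟨w₁, hw₁U, hw₁O, hw₁⟩ ⟨w₂, hw₂V, hw₂O, hw₂⟩
  obtain ⟨_, h1, t₁, rfl⟩ := mem_closure_iff.1 (hd ⟨hw₁O, hw₁⟩) U hU hw₁U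
  obtain ⟨_, h2, t₂, rfl⟩ := mem_closure_iff.1 (hd ⟨hw₂O, hw₂⟩) V hV hw₂V
  simp only at h1 h2
  have hc : Continuous fun t => Φ t w₀ := h.flow.continuous_left w₀
  obtain ⟨t₃, ht₃, hne⟩ : ∃ t₃, Φ t₃ w₀ ∈ V ∧ t₃ ≠ t₁ := by
    have h3 : ∀ᶠ t in 𝓝 t₂, Φ t w₀ ∈ V := hc.continuousAt.preimage_mem_nhds (hV.mem_nhds h2)
    have h4 : ∀ᶠ t in 𝓝[≠] t₁, t ≠ t₁ := self_mem_nhdsWithin
    rcases eq_or_ne t₂ t₁ with h5 | h5
    · rw [h5] at h3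
      obtain ⟨t, h6, h7⟩ := ((h3.filter_mono nhdsWithin_le_nhds).and h4).exists
      exact ⟨t, h6, h7⟩
    · exact ⟨t₂, h2, h5⟩
  have hUT : Φ t₁ w₀ ∈ UT S := by
    obtain ⟨h3, h4⟩ := h.mem hw₀.1 (by rw [hw₀.2]; norm_num) t₁
    exact ⟨h3, h4.trans hw₀.2⟩
  refine ⟨t₃ - t₁, sub_ne_zero.2 hne, Φ t₁ w₀, h1, hUT, ?_⟩
  rw [← h.flow.add h.vf, sub_add_cancel]
  exact ht₃

/-- Pairs of directions of nondegenerate connecting geodesics. -/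
def PairSet (Φ : ℝ → E × E → E × E) (Ω : Set N) (ψ : N → E) (x : N × N) : Set (N × N) :=
  {ab | ∃ (w : N) (r r' : ℝ), r ≠ 0 ∧ r' ≠ 0 ∧ Cfg Φ Ω Ω ψ ψ x w ∧ w = r • ab.1 ∧
    deriv (G1 Φ ψ (x.1, w)) 1 = r' • fderiv ℝ ψ x.2 ab.2}

/-- Pairs of points joined by a nondegenerate geodesic with directions in `B₁` and `B₂`. -/
def UP (Φ : ℝ → E × E → E × E) (Ω : Set N) (ψ : N → E) (B₁ B₂ : Set N) : Set (N × N) :=
  {x | ∃ ab ∈ B₁ ×ˢ B₂, ab ∈ PairSet Φ Ω ψ x}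

theorem isOpen_UP (h : GFlow F S A K K₂ Φ) (hp : Patch S Ω ψ P W) {B₁ B₂ : Set N}
    (hB₁ : IsOpen B₁) (hB₂ : IsOpen B₂) : IsOpen (UP Φ Ω ψ B₁ B₂) := by
  rw [isOpen_iff_mem_nhds]
  rintro x ⟨⟨a, b⟩, ⟨ha, hb⟩, w, r, r', hr, hr', ⟨h1, h2, h3, h4⟩, hwa, hvb⟩
  simp only at ha hb hwa hvb
  obtain ⟨O, V, κ, hbr, hxO, hwV, hκ⟩ := exists_br h hp hp h1 h2 h3 h4
  have hκc : ContinuousAt κ x := (contDiffAt_of_open hbr.isOpen hbr.smooth hxO).continuousAt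
  have hcc : ContinuousAt (fun x : N × N => (x.1, κ x)) x := continuousAt_fst.prodMk hκc
  have e1 := nondeg_eventually h hp (c := fun x : N × N => (x.1, κ x)) hcc h1 (by
    show Nondeg Φ ψ x.1 (κ x)
    rw [hκ]; exact h4)
  have e2 : ∀ᶠ x' in 𝓝 x, r⁻¹ • κ x' ∈ B₁ := by
    have hc : ContinuousAt (fun x' => r⁻¹ • κ x') x := hκc.const_smul r⁻¹
    refine hc.preimage_mem_nhds (hB₁.mem_nhds ?_)
    show r⁻¹ • κ x ∈ B₁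
    rw [hκ, hwa, smul_smul, inv_mul_cancel₀ hr, one_smul]; exact ha
  have hder : ContinuousAt (fun x' : N × N => deriv (G1 Φ ψ (x'.1, κ x')) 1) x := by
    have g1 := (contDiffAt_G1 h hp (x := ((x.1, κ x), 1)) h1).2.continuousAt
    have g2 : ContinuousAt (fun x' : N × N => (((x'.1, κ x'), 1) : (N × N) × ℝ)) x :=
      hcc.prodMk continuousAt_const
    exact ContinuousAt.comp (g := fun y : (N × N) × ℝ => deriv (G1 Φ ψ y.1) y.2)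
      (f := fun x' : N × N => (((x'.1, κ x'), 1) : (N × N) × ℝ)) (x := x) g1 g2
  have e3 : ∀ᶠ x' in 𝓝 x, r'⁻¹ • P (deriv (G1 Φ ψ (x'.1, κ x')) 1) ∈ B₂ := by
    have hc : ContinuousAt (fun x' : N × N => r'⁻¹ • P (deriv (G1 Φ ψ (x'.1, κ x')) 1)) x :=
      (P.continuous.continuousAt.comp hder).const_smul r'⁻¹
    refine hc.preimage_mem_nhds (hB₂.mem_nhds ?_)
    show r'⁻¹ • P (deriv (G1 Φ ψ (x.1, κ x)) 1) ∈ B₂
    rw [hκ, hvb, map_smul, hp.κ_fderiv h2, smul_smul, inv_mul_cancel₀ hr', one_smul]; exact hb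
  filter_upwards [e1, e2, e3, hbr.isOpen.mem_nhds hxO] with y hy1 hy2 hy3 hy4
  obtain ⟨g1, g2, -, g3⟩ := hbr.mem y hy4
  refine ⟨(r⁻¹ • κ y, r'⁻¹ • P (deriv (G1 Φ ψ (y.1, κ y)) 1)), ⟨hy2, hy3⟩, κ y, r, r', hr, hr',
    ⟨g1, g2, g3, hy1⟩, ?_, ?_⟩
  · rw [smul_smul, mul_inv_cancel₀ hr, one_smul]
  · have g4 : (ψ y.2, deriv (G1 Φ ψ (y.1, κ y)) 1) ∈ TSet S := by
      have := (isGeo_G1 h hp g1 (κ y)).1.mem_TSet 1
      rw [g3] at this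
      exact this
    have g5 := (hp.of_TSet (hp.maps _ g2) g4).2.2
    rw [hp.left _ g2] at g5
    rw [map_smul, smul_smul, mul_inv_cancel₀ hr', one_smul]
    exact g5.symm

theorem dense_UP (hdim : Module.finrank ℝ E = Module.finrank ℝ F + Module.finrank ℝ N)
    (h : GFlow F S A K K₂ Φ) (hp : Patch S Ω ψ P W) {O : Set (E × E)} (htr : Trans Φ S O)
    {Ω₀ A₀ : Set N}
    (hg : ∀ p ∈ Ω₀, ∀ a ∈ A₀, p ∈ Ω ∧ a ≠ 0 ∧
      (ψ p, ‖fderiv ℝ ψ p a‖⁻¹ • fderiv ℝ ψ p a) ∈ O)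
    {x : N × N} (hx1 : x.1 ∈ Ω₀) (hx2 : x.2 ∈ Ω₀) {B₁ B₂ : Set N} (hB₁ : IsOpen B₁)
    (hB₂ : IsOpen B₂) (hB₁A : B₁ ⊆ A₀) (hB₂A : B₂ ⊆ A₀) (hne₁ : B₁.Nonempty) (hne₂ : B₂.Nonempty)
    {Nx : Set (N × N)} (hN : Nx ∈ 𝓝 x) : ∃ x' ∈ Nx, x' ∈ UP Φ Ω ψ B₁ B₂ := by
  obtain ⟨p, q⟩ := x
  simp only at hx1 hx2
  obtain ⟨a, ha⟩ := hne₁
  obtain ⟨b, hb⟩ := hne₂
  obtain ⟨hpΩ, ha0, hO1⟩ := hg p hx1 a (hB₁A ha)
  obtain ⟨hqΩ, hb0, hO2⟩ := hg q hx2 b (hB₂A hb)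
  rw [nhds_prod_eq] at hN
  obtain ⟨N₁, hN₁, N₂, hN₂, hNN⟩ := mem_prod_iff.1 hN
  obtain ⟨M₁, hM₁N, hM₁o, hpM⟩ := mem_nhds_iff.1 hN₁
  obtain ⟨M₂, hM₂N, hM₂o, hqM⟩ := mem_nhds_iff.1 hN₂
  have hs : ∀ p ∈ Ω, ∀ a : N, a ≠ 0 → 0 < ‖fderiv ℝ ψ p a‖ := by
    intro p hp' a ha
    refine norm_pos_iff.2 fun h0 => ha (Patch.inj hp hp' (h0.trans (map_zero _).symm))
  have hs₁ := hs p hpΩ a ha0
  have hs₂ := hs q hqΩ b hb0
  set s₁ := ‖fderiv ℝ ψ p a‖ with hs₁d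
  set s₂ := ‖fderiv ℝ ψ q b‖ with hs₂d
  have hUT : ∀ p ∈ Ω, ∀ a : N, 0 < ‖fderiv ℝ ψ p a‖ →
      (ψ p, ‖fderiv ℝ ψ p a‖⁻¹ • fderiv ℝ ψ p a) ∈ UT S := by
    intro p hp' a ha
    refine ⟨scale_TSet (hp.mem_TSet h.sub hp' a) h.sub _, ?_⟩
    show ‖‖fderiv ℝ ψ p a‖⁻¹ • fderiv ℝ ψ p a‖ = 1
    rw [norm_smul, norm_inv, norm_norm, inv_mul_cancel₀ ha.ne']
  set U : Set (E × E) := {w | w.1 ∈ W} ∩ ({w | P w.1 ∈ M₁} ∩ {w | s₁ • P w.2 ∈ B₁}) with hU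
  set V : Set (E × E) := {w | w.1 ∈ W} ∩ ({w | P w.1 ∈ M₂} ∩ {w | s₂ • P w.2 ∈ B₂}) with hV
  have hopen : ∀ (M B : Set N) (s : ℝ), IsOpen M → IsOpen B →
      IsOpen ({w : E × E | w.1 ∈ W} ∩ ({w | P w.1 ∈ M} ∩ {w | s • P w.2 ∈ B})) := by
    intro M B s hM hB
    exact (hp.V_open.preimage continuous_fst).inter
      ((hM.preimage (P.continuous.comp continuous_fst)).inter
        (hB.preimage ((P.continuous.comp continuous_snd).const_smul s)))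
  have hUo : IsOpen U := hopen M₁ B₁ s₁ hM₁o hB₁
  have hVo : IsOpen V := hopen M₂ B₂ s₂ hM₂o hB₂
  obtain ⟨t, ht0, w', hw'U, hw'UT, hΦV⟩ := htr U V hUo hVo
    ⟨_, ⟨hp.maps p hpΩ, by
      show P (ψ p) ∈ M₁
      rw [hp.left p hpΩ]; exact hpM, by
      show s₁ • P (s₁⁻¹ • fderiv ℝ ψ p a) ∈ B₁
      rw [map_smul, hp.κ_fderiv hpΩ, smul_smul, mul_inv_cancel₀ hs₁.ne', one_smul]; exact ha⟩,
      hO1, hUT p hpΩ a hs₁⟩
    ⟨_, ⟨hp.maps q hqΩ, by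
      show P (ψ q) ∈ M₂
      rw [hp.left q hqΩ]; exact hqM, by
      show s₂ • P (s₂⁻¹ • fderiv ℝ ψ q b) ∈ B₂
      rw [map_smul, hp.κ_fderiv hqΩ, smul_smul, mul_inv_cancel₀ hs₂.ne', one_smul]; exact hb⟩,
      hO2, hUT q hqΩ b hs₂⟩
  -- chart data of `w'`
  obtain ⟨hp'Ω, hψp', hder⟩ := hp.of_TSet (q := w'.1) (v := w'.2) hw'U.1 hw'UT.1
  set p' := P w'.1 with hp'
  set a' := P w'.2 with ha'
  have hw'e : w' = (ψ p', fderiv ℝ ψ p' a') := Prod.ext hψp'.symm hder.symm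
  have hn : ‖fderiv ℝ ψ p' a'‖ = 1 := by rw [hder]; exact hw'UT.2
  have hcont : Continuous fun r => Φ r w' := h.flow.continuous_left w'
  have hIo : IsOpen ({r : ℝ | r ≠ 0} ∩ {r | Φ r w' ∈ V}) := isOpen_ne.inter (hVo.preimage hcont)
  obtain ⟨r, ⟨-, hrV⟩, hr0, hnd⟩ := exists_nondeg hdim h hp (p := p') hp'Ω (w := a')
    (by rw [hn]; norm_num) hIo ⟨t, ht0, hΦV⟩
  have hmem := (h.mem hw'UT.1 (by rw [hw'UT.2]; norm_num) r).1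
  obtain ⟨hq'Ω, hψq', hder'⟩ := hp.of_TSet (q := (Φ r w').1) (v := (Φ r w').2) hrV.1 hmem
  have hT' : (ψ p', fderiv ℝ ψ p' a') ∈ TSet S := by rw [← hw'e]; exact hw'UT.1
  have hG : G1 Φ ψ (p', r • a') = fun s => Geo Φ (ψ p') (fderiv ℝ ψ p' a') (r * s) := by
    funext s
    show Geo Φ (ψ p') (fderiv ℝ ψ p' (r • a')) s = _
    rw [map_smul, h.Geo_smul hT']
  have hGe := h.Geo_eq hT' one_pos (by rw [hn]; norm_num) r
  rw [one_mul, inv_one, one_smul, one_smul, ← hw'e] at hGe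
  refine ⟨(p', P (Φ r w').1), hNN ⟨hM₁N hw'U.2.1, hM₂N hrV.2.1⟩,
    (s₁ • a', s₂ • P (Φ r w').2), ⟨hw'U.2.2, hrV.2.2⟩, r • a', r * s₁⁻¹, r * s₂⁻¹,
    mul_ne_zero hr0 (inv_ne_zero hs₁.ne'), mul_ne_zero hr0 (inv_ne_zero hs₂.ne'),
    ⟨hp'Ω, hq'Ω, ?_, hnd⟩, ?_, ?_⟩
  · show G1 Φ ψ (p', r • a') 1 = ψ (P (Φ r w').1)
    rw [hG, hψq']
    show Geo Φ (ψ p') (fderiv ℝ ψ p' a') (r * 1) = _
    rw [mul_one]; exact hGe.1
  · show r • a' = (r * s₁⁻¹) • s₁ • a'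
    rw [smul_smul, mul_assoc, inv_mul_cancel₀ hs₁.ne', mul_one]
  · show deriv (G1 Φ ψ (p', r • a')) 1
      = (r * s₂⁻¹) • fderiv ℝ ψ (P (Φ r w').1) (s₂ • P (Φ r w').2)
    rw [map_smul, smul_smul, mul_assoc, inv_mul_cancel₀ hs₂.ne', mul_one, hder']
    have h1 := (h.isGeo_Geo hT').1
    have h2 := congrFun (deriv_affine h1 0 r) 1
    simp only [zero_add, mul_one] at h2
    rw [hG, h2, hGe.2]

/-! ### Loops -/

/-- No geodesic through both points passes twice through the first one. -/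
def NoLoop (Φ : ℝ → E × E → E × E) (ψ : N → E) (x : N × N) : Prop :=
  ∀ (w : N) (t s : ℝ), w ≠ 0 → t ≠ 0 → G1 Φ ψ (x.1, w) t = ψ x.1 → G1 Φ ψ (x.1, w) s = ψ x.2 → False

theorem continuousAt_G1 (h : GFlow F S A K K₂ Φ) (hp : Patch S Ω ψ P W) {B : Type*}
    [TopologicalSpace B] {b₀ : B} {f g : B → N} {τ : B → ℝ} (hf : ContinuousAt f b₀)
    (hg : ContinuousAt g b₀) (hτ : ContinuousAt τ b₀) (hΩ : f b₀ ∈ Ω) :
    ContinuousAt (fun b => G1 Φ ψ (f b, g b) (τ b)) b₀ := by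
  have g1 := (contDiffAt_G1 h hp (x := ((f b₀, g b₀), τ b₀)) hΩ).1.continuousAt
  exact ContinuousAt.comp (g := fun y : (N × N) × ℝ => G1 Φ ψ y.1 y.2)
    (f := fun b => (((f b, g b), τ b) : (N × N) × ℝ)) (x := b₀) g1 ((hf.prodMk hg).prodMk hτ)

theorem eq_of_mem_closure {B Z : Type*} [TopologicalSpace B] [TopologicalSpace Z] [T2Space Z]
    {R : Set B} {b : B} (hb : b ∈ closure R) {f g : B → Z} (hf : ContinuousAt f b)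
    (hg : ContinuousAt g b) (h : ∀ b ∈ R, f b = g b) : f b = g b := by
  have h1 : ∃ᶠ b' in 𝓝 b, f b' = g b' := (mem_closure_iff_frequently.1 hb).mono h
  exact tendsto_nhds_unique_of_frequently_eq hf hg h1

/-- The relation geodesic through both points passing twice through the first one. -/
def RL (Φ : ℝ → E × E → E × E) (Ω : Set N) (ψ : N → E) : Set ((N × N) × (N × ℝ × ℝ)) :=
  {b | (b.1.1 ∈ Ω ∧ b.1.2 ∈ Ω) ∧ G1 Φ ψ (b.1.1, b.2.1) b.2.2.1 = ψ b.1.1 ∧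
    G1 Φ ψ (b.1.1, b.2.1) b.2.2.2 = ψ b.1.2}

theorem closed_RL (h : GFlow F S A K K₂ Φ) (hp : Patch S Ω ψ P W)
    {b : (N × N) × (N × ℝ × ℝ)} (hb : b ∈ closure (RL Φ Ω ψ)) (hbD : b.1 ∈ Ω ×ˢ Ω) :
    b ∈ RL Φ Ω ψ := by
  have hψ1 : ContinuousAt (fun b : (N × N) × (N × ℝ × ℝ) => ψ b.1.1) b :=
    ContinuousAt.comp (g := ψ) (f := fun b : (N × N) × (N × ℝ × ℝ) => b.1.1)
      (contDiffAt_of_open hp.isOpen hp.smooth hbD.1).continuousAt (by fun_prop)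
  have hψ2 : ContinuousAt (fun b : (N × N) × (N × ℝ × ℝ) => ψ b.1.2) b :=
    ContinuousAt.comp (g := ψ) (f := fun b : (N × N) × (N × ℝ × ℝ) => b.1.2)
      (contDiffAt_of_open hp.isOpen hp.smooth hbD.2).continuousAt (by fun_prop)
  refine ⟨hbD, eq_of_mem_closure hb ?_ hψ1 fun b hb => hb.2.1, eq_of_mem_closure hb ?_ hψ2
    fun b hb => hb.2.2⟩
  · exact continuousAt_G1 h hp (f := fun b : (N × N) × (N × ℝ × ℝ) => b.1.1)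
      (g := fun b => b.2.1) (τ := fun b => b.2.2.1) (by fun_prop) (by fun_prop) (by fun_prop) hbD.1
  · exact continuousAt_G1 h hp (f := fun b : (N × N) × (N × ℝ × ℝ) => b.1.1)
      (g := fun b => b.2.1) (τ := fun b => b.2.2.2) (by fun_prop) (by fun_prop) (by fun_prop) hbD.1

theorem noLoop_meagre (hN : 1 < Module.finrank ℝ N) (h : GFlow F S A K K₂ Φ)
    (hsec : Secure S) (hp : Patch S Ω ψ P W) :
    IsMeagre {x : N × N | x ∈ Ω ×ˢ Ω ∧ ¬ NoLoop Φ ψ x} := by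
  refine (meagre_of_closedRel (R := RL Φ Ω ψ) (D := Ω ×ˢ Ω) (hp.isOpen.prod hp.isOpen)
    fun b hb hbD => closed_RL h hp hb hbD).mono ?_
  rintro ⟨p, q⟩ ⟨⟨hpΩ, hqΩ⟩, hx⟩
  simp only [NoLoop] at hx
  push Not at hx
  obtain ⟨w, t, s, hw, ht, e1, e2, -⟩ := hx
  refine ⟨⟨hpΩ, hqΩ⟩, (w, t, s), ⟨⟨hpΩ, hqΩ⟩, e1, e2⟩, ?_⟩
  set T : ℝ := ‖t • fderiv ℝ ψ p w‖ + 1 with hT
  set V : Set (N × ℝ × ℝ) := {y | y.1 ≠ 0} ∩ ({y | y.2.1 ≠ 0} ∩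
    {y | ‖y.2.1 • fderiv ℝ ψ p y.1‖ < T}) with hV
  have hVo : IsOpen V := by
    refine (isOpen_ne.preimage continuous_fst).inter
      ((isOpen_ne.preimage (continuous_snd.fst)).inter ?_)
    have hc : Continuous fun y : N × ℝ × ℝ => ‖y.2.1 • fderiv ℝ ψ p y.1‖ := by fun_prop
    exact isOpen_lt hc continuous_const
  refine ⟨V, hVo.mem_nhds ⟨hw, ht, by
    show ‖t • fderiv ℝ ψ p w‖ < T
    rw [hT]; linarith⟩, fun hev => ?_⟩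
  have hψp : ψ p ∈ S := hp.mem p hpΩ
  have hfin := finite_geodesics h.compact h.sub hsec hψp hψp T
  set 𝓕 : Set (ℝ → E) := {γ : ℝ → E | IsGeo S γ ∧ γ 0 = ψ p ∧ γ 1 = ψ p ∧ deriv γ 0 ≠ 0 ∧
    ‖deriv γ 0‖ ≤ T} with h𝓕
  have hcount : ((fun γ : ℝ → E => fun τ => P (γ τ)) '' 𝓕).Countable := hfin.countable.image _
  refine not_covered hN (q := q) hcount ?_ ?_
  · rintro _ ⟨γ, hγ, rfl⟩
    exact P.contDiff.comp (hγ.1.smooth.of_le (by exact_mod_cast le_top))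
  · have hc : ContinuousAt (fun q' : N => ((p, q') : N × N)) q := by fun_prop
    have hev' := hc.eventually hev
    filter_upwards [hev', hp.isOpen.mem_nhds hqΩ] with q' hq' hq'Ω
    obtain ⟨⟨w', t', s'⟩, ⟨v1, v2, v3⟩, -, f1, f2⟩ := hq'
    simp only [mem_setOf_eq] at v1 v2 v3 f1 f2
    obtain ⟨g1, g2, g3⟩ := isGeo_G1 h hp hpΩ w'
    refine ⟨_, ⟨fun τ => G1 Φ ψ (p, w') (0 + t' * τ), ⟨g1.affine 0 t', ?_, ?_, ?_, ?_⟩, rfl⟩,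
      s' / t', ?_⟩
    · show G1 Φ ψ (p, w') (0 + t' * 0) = ψ p
      rw [mul_zero, add_zero, g2]
    · show G1 Φ ψ (p, w') (0 + t' * 1) = ψ p
      rw [mul_one, zero_add, f1]
    · rw [deriv_affine g1]
      show t' • deriv (G1 Φ ψ (p, w')) (0 + t' * 0) ≠ 0
      rw [mul_zero, add_zero, g3]
      refine smul_ne_zero v2 fun h0 => v1 (Patch.inj hp hpΩ (h0.trans (map_zero _).symm))
    · rw [deriv_affine g1]
      show ‖t' • deriv (G1 Φ ψ (p, w')) (0 + t' * 0)‖ ≤ T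
      rw [mul_zero, add_zero, g3]; exact v3.le
    · show P (G1 Φ ψ (p, w') (0 + t' * (s' / t'))) = q'
      rw [zero_add, mul_div_cancel₀ _ v2, f2, hp.left q' hq'Ω]

/-! ### Persistence of triples -/

/-- Three velocities and three times. -/
abbrev Y3 (N : Type*) : Type _ := (N × N × N) × (ℝ × ℝ × ℝ)

/-- Three geodesics with a common point. -/
def Eq3 (Φ : ℝ → E × E → E × E) (ψ : N → E) (x : N × N) (y : Y3 N) : Prop :=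
  G1 Φ ψ (x.1, y.1.1) 1 = ψ x.2 ∧ G1 Φ ψ (x.1, y.1.2.1) 1 = ψ x.2 ∧
    G1 Φ ψ (x.1, y.1.2.2) 1 = ψ x.2 ∧
    G1 Φ ψ (x.1, y.1.1) y.2.1 = G1 Φ ψ (x.1, y.1.2.1) y.2.2.1 ∧
    G1 Φ ψ (x.1, y.1.1) y.2.1 = G1 Φ ψ (x.1, y.1.2.2) y.2.2.2

/-- All triples of geodesics with a common point persist. -/
def Pers (Φ : ℝ → E × E → E × E) (ψ : N → E) (x : N × N) : Prop :=
  ∀ y : Y3 N, Eq3 Φ ψ x y → ∀ V ∈ 𝓝 y, ∀ᶠ x' in 𝓝 x, ∃ y' ∈ V, Eq3 Φ ψ x' y'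

theorem pers_meagre (h : GFlow F S A K K₂ Φ) (hp : Patch S Ω ψ P W) :
    IsMeagre {x : N × N | x ∈ Ω ×ˢ Ω ∧ ¬ Pers Φ ψ x} := by
  set R : Set ((N × N) × Y3 N) := {b | b.1 ∈ Ω ×ˢ Ω ∧ Eq3 Φ ψ b.1 b.2} with hR
  refine (meagre_of_closedRel (R := R) (D := Ω ×ˢ Ω) (hp.isOpen.prod hp.isOpen) ?_).mono ?_
  · intro b hb hbD
    have hψ2 : ContinuousAt (fun b : (N × N) × Y3 N => ψ b.1.2) b :=
      ContinuousAt.comp (g := ψ) (f := fun b : (N × N) × Y3 N => b.1.2)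
        (contDiffAt_of_open hp.isOpen hp.smooth hbD.2).continuousAt (by fun_prop)
    have c : ∀ (g : (N × N) × Y3 N → N) (τ : (N × N) × Y3 N → ℝ), Continuous g → Continuous τ →
        ContinuousAt (fun b => G1 Φ ψ (b.1.1, g b) (τ b)) b := by
      intro g τ hg hτ
      exact continuousAt_G1 h hp (f := fun b : (N × N) × Y3 N => b.1.1) (by fun_prop)
        hg.continuousAt hτ.continuousAt hbD.1
    refine ⟨hbD, ?_, ?_, ?_, ?_, ?_⟩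
    · exact eq_of_mem_closure hb (c (fun b => b.2.1.1) (fun _ => 1) (by fun_prop) (by fun_prop)) hψ2
        fun b hb => hb.2.1
    · exact eq_of_mem_closure hb (c (fun b => b.2.1.2.1) (fun _ => 1) (by fun_prop) (by fun_prop))
        hψ2 fun b hb => hb.2.2.1
    · exact eq_of_mem_closure hb (c (fun b => b.2.1.2.2) (fun _ => 1) (by fun_prop) (by fun_prop))
        hψ2 fun b hb => hb.2.2.2.1
    · exact eq_of_mem_closure hb (c (fun b => b.2.1.1) (fun b => b.2.2.1) (by fun_prop)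
        (by fun_prop)) (c (fun b => b.2.1.2.1) (fun b => b.2.2.2.1) (by fun_prop) (by fun_prop))
        fun b hb => hb.2.2.2.2.1
    · exact eq_of_mem_closure hb (c (fun b => b.2.1.1) (fun b => b.2.2.1) (by fun_prop)
        (by fun_prop)) (c (fun b => b.2.1.2.2) (fun b => b.2.2.2.2) (by fun_prop) (by fun_prop))
        fun b hb => hb.2.2.2.2.2
  · rintro x ⟨hxD, hx⟩
    simp only [Pers] at hx
    push Not at hx
    obtain ⟨y, hy, V, hV, hbad⟩ := hx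
    refine ⟨hxD, y, ⟨hxD, hy⟩, V, hV, fun hev => hbad ?_⟩
    filter_upwards [hev] with x' hx' hno
    obtain ⟨y', hy', hy'R⟩ := hx'
    exact hno y' hy' hy'R.2

/-! ### Residual pairs -/

/-- Nonempty open sets of base points and directions in the region of transitivity. -/
theorem exists_region (h : GFlow F S A K K₂ Φ) (hp : Patch S Ω ψ P W) {O : Set (E × E)}
    (hO : IsOpen O) {w : E × E} (hwO : w ∈ O) (hwUT : w ∈ UT S) (hwW : w.1 ∈ W) :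
    ∃ Ω₀ A₀ : Set N, IsOpen Ω₀ ∧ IsOpen A₀ ∧ Ω₀.Nonempty ∧ A₀.Nonempty ∧
      ∀ p ∈ Ω₀, ∀ a ∈ A₀, p ∈ Ω ∧ a ≠ 0 ∧ (ψ p, ‖fderiv ℝ ψ p a‖⁻¹ • fderiv ℝ ψ p a) ∈ O := by
  obtain ⟨h1, h2, h3⟩ := hp.of_TSet (q := w.1) (v := w.2) hwW hwUT.1
  set p := P w.1 with hpd
  set a := P w.2 with had
  have hn : ‖fderiv ℝ ψ p a‖ = 1 := by rw [h3]; exact hwUT.2
  have hc : ContinuousAt (fun y : N × N => ((ψ y.1, ‖fderiv ℝ ψ y.1 y.2‖⁻¹ • fderiv ℝ ψ y.1 y.2) :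
      E × E)) (p, a) := by
    have c1 : ContinuousAt (fun y : N × N => ψ y.1) (p, a) :=
      ContinuousAt.comp (g := ψ) (f := fun y : N × N => y.1)
        (contDiffAt_of_open hp.isOpen hp.smooth h1).continuousAt (by fun_prop)
    have c2 : ContinuousAt (fun y : N × N => fderiv ℝ ψ y.1 y.2) (p, a) :=
      (ContinuousAt.comp (g := fderiv ℝ ψ) (f := fun y : N × N => y.1)
        (contDiffAt_of_open hp.isOpen hp.fderiv_smooth h1).continuousAt (by fun_prop)).clm_apply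
        continuousAt_snd
    exact c1.prodMk ((c2.norm.inv₀ (by
      show ‖fderiv ℝ ψ p a‖ ≠ 0
      rw [hn]; exact one_ne_zero)).smul c2)
  have e1 : ∀ᶠ y : N × N in 𝓝 (p, a), ((ψ y.1, ‖fderiv ℝ ψ y.1 y.2‖⁻¹ • fderiv ℝ ψ y.1 y.2) :
      E × E) ∈ O := by
    refine hc.preimage_mem_nhds (hO.mem_nhds ?_)
    show (ψ p, ‖fderiv ℝ ψ p a‖⁻¹ • fderiv ℝ ψ p a) ∈ O
    rw [hn, inv_one, one_smul, h2, h3]; exact hwO
  have e2 : ∀ᶠ y : N × N in 𝓝 (p, a), y.1 ∈ Ω :=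
    continuousAt_fst.preimage_mem_nhds (hp.isOpen.mem_nhds h1)
  have ha0 : a ≠ 0 := by
    intro h0
    rw [h0, map_zero, norm_zero] at hn
    exact zero_ne_one hn
  have e3 : ∀ᶠ y : N × N in 𝓝 (p, a), y.2 ≠ 0 :=
    continuousAt_snd.eventually_ne ha0
  have e4 := e1.and (e2.and e3)
  rw [nhds_prod_eq] at e4
  obtain ⟨N₁, hN₁, N₂, hN₂, hNN⟩ := mem_prod_iff.1 e4
  obtain ⟨M₁, hM₁N, hM₁o, hpM⟩ := mem_nhds_iff.1 hN₁
  obtain ⟨M₂, hM₂N, hM₂o, haM⟩ := mem_nhds_iff.1 hN₂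
  refine ⟨M₁, M₂, hM₁o, hM₂o, ⟨p, hpM⟩, ⟨a, haM⟩, fun p' hp' a' ha' => ?_⟩
  have h5 := hNN (show (p', a') ∈ N₁ ×ˢ N₂ from ⟨hM₁N hp', hM₂N ha'⟩)
  exact ⟨h5.2.1, h5.2.2, h5.1⟩

theorem exists_residual (hdim : Module.finrank ℝ E = Module.finrank ℝ F + Module.finrank ℝ N)
    (hN : 1 < Module.finrank ℝ N) (h : GFlow F S A K K₂ Φ) (hsec : Secure S)
    (hp : Patch S Ω ψ P W) {O : Set (E × E)} (htr : Trans Φ S O) {Ω₀ A₀ : Set N}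
    (hΩ₀ : IsOpen Ω₀) (hΩne : Ω₀.Nonempty)
    (hg : ∀ p ∈ Ω₀, ∀ a ∈ A₀, p ∈ Ω ∧ a ≠ 0 ∧
      (ψ p, ‖fderiv ℝ ψ p a‖⁻¹ • fderiv ℝ ψ p a) ∈ O) (hAo : IsOpen A₀) (hAne : A₀.Nonempty)
    {Mg : Set (N × N)} (hMg : IsMeagre Mg) :
    ∃ x : N × N, x.1 ∈ Ω₀ ∧ x.2 ∈ Ω₀ ∧ x.1 ∈ Ω ∧ x.2 ∈ Ω ∧ x ∉ Mg ∧
      A₀ ×ˢ A₀ ⊆ closure (PairSet Φ Ω ψ x) ∧ NoLoop Φ ψ x ∧ Pers Φ ψ x := by
  set Bs := TopologicalSpace.countableBasis N with hBs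
  have hBc : Bs.Countable := TopologicalSpace.countable_countableBasis N
  have hΩsub : ∀ p ∈ Ω₀, p ∈ Ω := fun p hp' => (hg p hp' _ hAne.some_mem).1
  have hOo : IsOpen (Ω₀ ×ˢ Ω₀) := hΩ₀.prod hΩ₀
  set I : Set (Set N × Set N) := {b | b.1 ∈ Bs ∧ b.2 ∈ Bs ∧ b.1 ⊆ A₀ ∧ b.2 ⊆ A₀} with hI
  have hIc : I.Countable := (hBc.prod hBc).mono fun b (hb : b ∈ I) =>
    (⟨hb.1, hb.2.1⟩ : b ∈ Bs ×ˢ Bs)
  have m1 : IsMeagre (⋃ b ∈ I, (UP Φ Ω ψ b.1 b.2)ᶜ ∩ (Ω₀ ×ˢ Ω₀)) := by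
    haveI := hIc.to_subtype
    rw [biUnion_eq_iUnion]
    refine isMeagre_iUnion fun b => ?_
    obtain ⟨⟨b₁, b₂⟩, hb1, hb2, hb3, hb4⟩ := b
    simp only at hb1 hb2 hb3 hb4
    have o1 := TopologicalSpace.isOpen_of_mem_countableBasis hb1
    have o2 := TopologicalSpace.isOpen_of_mem_countableBasis hb2
    have n1 := TopologicalSpace.nonempty_of_mem_countableBasis hb1
    have n2 := TopologicalSpace.nonempty_of_mem_countableBasis hb2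
    have hcl : IsClosed (UP Φ Ω ψ b₁ b₂)ᶜ := (isOpen_UP h hp o1 o2).isClosed_compl
    have hnd : IsNowhereDense ((UP Φ Ω ψ b₁ b₂)ᶜ ∩ (Ω₀ ×ˢ Ω₀)) := by
      rw [IsNowhereDense, eq_empty_iff_forall_notMem]
      intro x hx
      set V := interior (closure ((UP Φ Ω ψ b₁ b₂)ᶜ ∩ (Ω₀ ×ˢ Ω₀))) with hV
      obtain ⟨c, hcV, hcC⟩ := mem_closure_iff.1 (interior_subset hx :
        x ∈ closure ((UP Φ Ω ψ b₁ b₂)ᶜ ∩ (Ω₀ ×ˢ Ω₀))) V isOpen_interior hx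
      obtain ⟨x', hx'V, hx'U⟩ := dense_UP hdim h hp htr hg hcC.2.1 hcC.2.2 o1 o2 hb3 hb4 n1 n2
        (isOpen_interior.mem_nhds hcV)
      have h1 : x' ∈ closure ((UP Φ Ω ψ b₁ b₂)ᶜ ∩ (Ω₀ ×ˢ Ω₀)) := interior_subset hx'V
      exact (closure_minimal inter_subset_left hcl h1) hx'U
    exact hnd.isMeagre
  have m2 := noLoop_meagre hN h hsec hp
  have m3 := pers_meagre h hp
  by_contra hcon
  push Not at hcon
  obtain ⟨p₀, hp₀⟩ := hΩne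
  refine not_isMeagre_of_isOpen hOo ⟨(p₀, p₀), hp₀, hp₀⟩
    ((m1.union (m2.union (m3.union hMg))).mono ?_)
  intro x hx
  by_cases c1 : x ∈ ⋃ b ∈ I, (UP Φ Ω ψ b.1 b.2)ᶜ ∩ (Ω₀ ×ˢ Ω₀)
  · exact Or.inl c1
  · by_cases c2 : NoLoop Φ ψ x
    · by_cases c3 : Pers Φ ψ x
      · by_cases c4 : x ∈ Mg
        · exact Or.inr (Or.inr (Or.inr c4))
        · exfalso
          refine hcon x hx.1 hx.2 (hΩsub _ hx.1) (hΩsub _ hx.2) c4 ?_ c2 c3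
          rintro ⟨a, b⟩ ⟨ha, hb⟩
          rw [mem_closure_iff_nhds]
          intro V hV
          rw [nhds_prod_eq] at hV
          obtain ⟨N₁, hN₁, N₂, hN₂, hNN⟩ := mem_prod_iff.1 hV
          obtain ⟨b₁, hb₁, hab₁, hb₁N⟩ := (TopologicalSpace.isBasis_countableBasis N).mem_nhds_iff.1
            (inter_mem hN₁ (hAo.mem_nhds ha))
          obtain ⟨b₂, hb₂, hab₂, hb₂N⟩ := (TopologicalSpace.isBasis_countableBasis N).mem_nhds_iff.1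
            (inter_mem hN₂ (hAo.mem_nhds hb))
          have h1 : x ∈ UP Φ Ω ψ b₁ b₂ := by
            by_contra hx'
            exact c1 (mem_biUnion (show (b₁, b₂) ∈ I from ⟨hb₁, hb₂, fun y hy => (hb₁N hy).2,
              fun y hy => (hb₂N hy).2⟩) ⟨hx', hx⟩)
          obtain ⟨ab, ⟨hab1, hab2⟩, hab3⟩ := h1
          exact ⟨ab, hNN ⟨(hb₁N hab1).1, (hb₂N hab2).1⟩, hab3⟩
      · exact Or.inr (Or.inr (Or.inl ⟨⟨hΩsub _ hx.1, hΩsub _ hx.2⟩, c3⟩))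
    · exact Or.inr (Or.inl ⟨⟨hΩsub _ hx.1, hΩsub _ hx.2⟩, c2⟩)

end Pool.Agent.H59.ND
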