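import Pool.Agent.H59.LV.Recur
import Pool.Agent.H91.GS.Geo

/-!
# Geodesics in patches of arbitrary dimension: endpoint map, nondegeneracy, branches
-/

set_option autoImplicit false

open scoped InnerProductSpace Topology ContDiff
open Set Filter

namespace Pool.Agent.H59.ND

open Pool.Agent.H91.GE Pool.Agent.H59.LV

variable {E F N : Type*} [NormedAddCommGroup E] [InnerProductSpace ℝ E] [FiniteDimensional ℝ E]
  [NormedAddCommGroup F] [InnerProductSpace ℝ F] [FiniteDimensional ℝ F]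
  [NormedAddCommGroup N] [NormedSpace ℝ N] [FiniteDimensional ℝ N]
  {S : Set E} {A : E × E → E} {K K₂ : NNReal} {Φ : ℝ → E × E → E × E}

/-- Derivatives of maps with values in `S` are tangent vectors. -/
theorem mem_TSet_of_map (hsub : IsSub F S) {B : Type*} [NormedAddCommGroup B] [NormedSpace ℝ B]
    {Z : B → E} {b₀ : B} (hZ : DifferentiableAt ℝ Z b₀) (hm : ∀ᶠ b in 𝓝 b₀, Z b ∈ S) (v : B) :
    (Z b₀, fderiv ℝ Z b₀ v) ∈ TSet S := by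
  have hS : Z b₀ ∈ S := hm.self_of_nhds
  obtain ⟨U, hU, f, hf⟩ := hsub (Z b₀) hS
  refine (mem_TSet_iff hf hU).2 ⟨hS, ?_⟩
  have h1 : HasFDerivAt (fun x => f (Z x)) (fderiv ℝ f (Z b₀) ∘L fderiv ℝ Z b₀) b₀ :=
    (hasFDerivAt_of_open hf.isOpen hf.smooth hU).comp b₀ hZ.hasFDerivAt
  have h2 : (fun x => f (Z x)) =ᶠ[𝓝 b₀] fun _ => 0 := by
    have h3 : ∀ᶠ y in 𝓝 b₀, Z y ∈ U := hZ.continuousAt.preimage_mem_nhds (hf.isOpen.mem_nhds hU)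
    filter_upwards [h3, hm] with y hy hy'
    exact (hf.mem_iff hy).1 hy'
  have h3 := h1.unique ((hasFDerivAt_const (0 : F) b₀).congr_of_eventuallyEq h2)
  exact congrArg (fun L : B →L[ℝ] F => L v) h3

variable {Ω Ω₁ Ω₂ : Set N} {ψ ψ₁ ψ₂ : N → E} {P P₁ P₂ : E →L[ℝ] N} {W W₁ W₂ : Set E}

omit [FiniteDimensional ℝ E] [FiniteDimensional ℝ N] in
theorem Patch.inj (hp : Patch S Ω ψ P W) {p : N} (hpΩ : p ∈ Ω) :
    Function.Injective (fderiv ℝ ψ p) := by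
  intro a b hab
  rw [← hp.κ_fderiv hpΩ a, ← hp.κ_fderiv hpΩ b, hab]

/-- The geodesic with initial data given in a patch. -/
noncomputable def G1 (Φ : ℝ → E × E → E × E) (ψ : N → E) (y : N × N) (t : ℝ) : E :=
  Geo Φ (ψ y.1) (fderiv ℝ ψ y.1 y.2) t

theorem isGeo_G1 (h : GFlow F S A K K₂ Φ) (hp : Patch S Ω ψ P W) {p : N} (hpΩ : p ∈ Ω)
    (w : N) : IsGeo S (G1 Φ ψ (p, w)) ∧ G1 Φ ψ (p, w) 0 = ψ p ∧
      deriv (G1 Φ ψ (p, w)) 0 = fderiv ℝ ψ p w :=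
  h.isGeo_Geo (hp.mem_TSet h.sub hpΩ w)

theorem contDiffAt_G1 (h : GFlow F S A K K₂ Φ) (hp : Patch S Ω ψ P W)
    {x : (N × N) × ℝ} (hx : x.1.1 ∈ Ω) :
    ContDiffAt ℝ ∞ (fun x : (N × N) × ℝ => G1 Φ ψ x.1 x.2) x ∧
      ContDiffAt ℝ ∞ (fun x : (N × N) × ℝ => deriv (G1 Φ ψ x.1) x.2) x := by
  set M : ℝ := ‖fderiv ℝ ψ x.1.1 x.1.2‖ + 1 with hM
  have hM0 : 0 < M := by positivity
  have hψ : ContDiffAt ℝ ∞ ψ x.1.1 := contDiffAt_of_open hp.isOpen hp.smooth hx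
  have hψ' : ContDiffAt ℝ ∞ (fderiv ℝ ψ) x.1.1 := contDiffAt_of_open hp.isOpen hp.fderiv_smooth hx
  have c1 : ContDiffAt ℝ ∞ (fun x : (N × N) × ℝ => ψ x.1.1) x :=
    ContDiffAt.comp x hψ (contDiffAt_fst.fst)
  have c2 : ContDiffAt ℝ ∞ (fun x : (N × N) × ℝ => fderiv ℝ ψ x.1.1 x.1.2) x :=
    (ContDiffAt.comp x hψ' (contDiffAt_fst.fst)).clm_apply (contDiffAt_fst.snd)
  have c3 : ContDiffAt ℝ ∞ (fun x : (N × N) × ℝ =>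
      (M * x.2, (ψ x.1.1, M⁻¹ • fderiv ℝ ψ x.1.1 x.1.2))) x :=
    (contDiffAt_const.mul contDiffAt_snd).prodMk (c1.prodMk (contDiffAt_const.smul c2))
  have c4 : ContDiffAt ℝ ∞ (fun x : (N × N) × ℝ =>
      Φ (M * x.2) (ψ x.1.1, M⁻¹ • fderiv ℝ ψ x.1.1 x.1.2)) x :=
    ContDiffAt.comp x h.contDiff.contDiffAt c3
  have hev : ∀ᶠ y : (N × N) × ℝ in 𝓝 x, y.1.1 ∈ Ω ∧
      ‖fderiv ℝ ψ y.1.1 y.1.2‖ < 2 * M := by
    refine Eventually.and ?_ ?_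
    · exact (continuous_fst.fst.continuousAt).preimage_mem_nhds (hp.isOpen.mem_nhds hx)
    · refine c2.continuousAt.norm.eventually_lt_const ?_
      show ‖fderiv ℝ ψ x.1.1 x.1.2‖ < 2 * M
      have := norm_nonneg (fderiv ℝ ψ x.1.1 x.1.2)
      rw [hM]; linarith
  constructor
  · refine (contDiffAt_fst.comp x c4).congr_of_eventuallyEq ?_
    filter_upwards [hev] with y hy
    exact (h.Geo_eq (hp.mem_TSet h.sub hy.1 y.1.2) hM0 hy.2.le y.2).1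
  · refine (contDiffAt_const.smul (contDiffAt_snd.comp x c4)).congr_of_eventuallyEq ?_ (f := fun y =>
      M • (Φ (M * y.2) (ψ y.1.1, M⁻¹ • fderiv ℝ ψ y.1.1 y.1.2)).2)
    filter_upwards [hev] with y hy
    exact (h.Geo_eq (hp.mem_TSet h.sub hy.1 y.1.2) hM0 hy.2.le y.2).2

/-- The endpoint map. -/
noncomputable def G11 (Φ : ℝ → E × E → E × E) (ψ : N → E) (y : N × N) : E := G1 Φ ψ y 1

/-- Nondegenerate geodesics. -/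
def Nondeg (Φ : ℝ → E × E → E × E) (ψ : N → E) (p w : N) : Prop :=
  Function.Injective fun b : N => fderiv ℝ (G11 Φ ψ) (p, w) (0, b)

theorem contDiffAt_G11 (h : GFlow F S A K K₂ Φ) (hp : Patch S Ω ψ P W)
    {y : N × N} (hy : y.1 ∈ Ω) : ContDiffAt ℝ ∞ (G11 Φ ψ) y := by
  have h1 := (contDiffAt_G1 h hp (x := (y, 1)) hy).1
  have h2 : ContDiffAt ℝ ∞ (fun y : N × N => (y, (1 : ℝ))) y :=
    contDiffAt_id.prodMk contDiffAt_const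
  exact ContDiffAt.comp y (g := fun x : (N × N) × ℝ => G1 Φ ψ x.1 x.2) h1 h2

theorem mem_G1 (h : GFlow F S A K K₂ Φ) (hp : Patch S Ω ψ P W) {p : N} (hpΩ : p ∈ Ω)
    (w : N) (t : ℝ) : G1 Φ ψ (p, w) t ∈ S :=
  (isGeo_G1 h hp hpΩ w).1.mem t

theorem tangent_G11 (h : GFlow F S A K K₂ Φ) (hp : Patch S Ω ψ P W)
    {y : N × N} (hy : y.1 ∈ Ω) (v : N × N) :
    (G11 Φ ψ y, fderiv ℝ (G11 Φ ψ) y v) ∈ TSet S := by
  refine mem_TSet_of_map h.sub ((contDiffAt_G11 h hp hy).differentiableAt (by simp)) ?_ v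
  have h1 : ∀ᶠ z : N × N in 𝓝 y, z.1 ∈ Ω :=
    continuous_fst.continuousAt.preimage_mem_nhds (hp.isOpen.mem_nhds hy)
  filter_upwards [h1] with z hz
  exact mem_G1 h hp hz z.2 1

/-- A smooth branch of connecting geodesics. -/
structure Br (Φ : ℝ → E × E → E × E) (Ω₁ Ω₂ : Set N) (ψ₁ ψ₂ : N → E) (O : Set (N × N))
    (V : Set N) (κ : N × N → N) : Prop where
  isOpen : IsOpen O
  V_open : IsOpen V
  smooth : ContDiffOn ℝ ∞ κ O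
  mem : ∀ x ∈ O, x.1 ∈ Ω₁ ∧ x.2 ∈ Ω₂ ∧ κ x ∈ V ∧ G1 Φ ψ₁ (x.1, κ x) 1 = ψ₂ x.2
  uniq : ∀ x ∈ O, ∀ w ∈ V, G1 Φ ψ₁ (x.1, w) 1 = ψ₂ x.2 → w = κ x

theorem exists_br (h : GFlow F S A K K₂ Φ) (hp₁ : Patch S Ω₁ ψ₁ P₁ W₁)
    (hc₂ : Patch S Ω₂ ψ₂ P₂ W₂)
    {x₀ : N × N} (hx1 : x₀.1 ∈ Ω₁) (hx2 : x₀.2 ∈ Ω₂) {w₀ : N}
    (h0 : G1 Φ ψ₁ (x₀.1, w₀) 1 = ψ₂ x₀.2) (hnd : Nondeg Φ ψ₁ x₀.1 w₀) :
    ∃ (O : Set (N × N)) (V : Set N) (κ : N × N → N), Br Φ Ω₁ Ω₂ ψ₁ ψ₂ O V κ ∧ x₀ ∈ O ∧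
      w₀ ∈ V ∧ κ x₀ = w₀ := by
  let π : (N × N) × N → N × N := fun y => (y.1.1, y.2)
  have hπ : ContDiff ℝ ∞ π := (contDiff_fst.fst).prodMk contDiff_snd
  set D₀ : Set ((N × N) × N) := {y | y.1.1 ∈ Ω₁ ∧ y.1.2 ∈ Ω₂} with hD₀
  have hD₀o : IsOpen D₀ :=
    (hp₁.isOpen.preimage (continuous_fst.fst)).inter (hc₂.isOpen.preimage (continuous_fst.snd))
  have hG : ContDiffOn ℝ ∞ (fun y => G11 Φ ψ₁ (π y)) D₀ := fun y hy =>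
    (ContDiffAt.comp y (g := G11 Φ ψ₁) (f := π) (contDiffAt_G11 h hp₁ (y := π y) hy.1)
      hπ.contDiffAt).contDiffWithinAt
  set D : Set ((N × N) × N) := D₀ ∩ (fun y => G11 Φ ψ₁ (π y)) ⁻¹' W₂ with hD
  have hDo : IsOpen D := hG.continuousOn.isOpen_inter_preimage hD₀o hc₂.V_open
  let Fn : (N × N) × N → N := fun y => P₂ (G11 Φ ψ₁ (π y)) - y.1.2
  have hF : ContDiffOn ℝ ∞ Fn D :=
    ((P₂.contDiff.comp_contDiffOn hG).mono inter_subset_left).sub contDiff_fst.snd.contDiffOn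
  have h0' : G11 Φ ψ₁ (x₀.1, w₀) = ψ₂ x₀.2 := h0
  have hmem : (x₀, w₀) ∈ D := by
    refine ⟨⟨hx1, hx2⟩, ?_⟩
    show G11 Φ ψ₁ (x₀.1, w₀) ∈ W₂
    rw [h0']; exact hc₂.maps _ hx2
  have hF0 : Fn (x₀, w₀) = 0 := by
    show P₂ (G11 Φ ψ₁ (x₀.1, w₀)) - x₀.2 = 0
    rw [h0', hc₂.left _ hx2, sub_self]
  have hder : ∀ b : N, fderiv ℝ Fn (x₀, w₀) (0, b)
      = P₂ (fderiv ℝ (G11 Φ ψ₁) (x₀.1, w₀) (0, b)) := by
    intro b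
    have h1 : HasFDerivAt (G11 Φ ψ₁) (fderiv ℝ (G11 Φ ψ₁) (x₀.1, w₀)) (π (x₀, w₀)) :=
      ((contDiffAt_G11 h hp₁ (y := (x₀.1, w₀)) hx1).differentiableAt (by simp)).hasFDerivAt
    let πL : (N × N) × N →L[ℝ] N × N :=
      ((ContinuousLinearMap.fst ℝ N N) ∘L (ContinuousLinearMap.fst ℝ (N × N) N)).prod
        (ContinuousLinearMap.snd ℝ (N × N) N)
    have h2 : HasFDerivAt π πL (x₀, w₀) := πL.hasFDerivAt
    let qL : (N × N) × N →L[ℝ] N :=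
      (ContinuousLinearMap.snd ℝ N N) ∘L (ContinuousLinearMap.fst ℝ (N × N) N)
    have h3 : HasFDerivAt (fun y : (N × N) × N => y.1.2) qL (x₀, w₀) := qL.hasFDerivAt
    have h4 : HasFDerivAt Fn ((P₂ ∘L ((fderiv ℝ (G11 Φ ψ₁) (x₀.1, w₀)) ∘L πL)) - qL) (x₀, w₀) :=
      (P₂.hasFDerivAt.comp (x₀, w₀) (h1.comp (x₀, w₀) h2)).sub h3
    rw [h4.fderiv]
    show P₂ (fderiv ℝ (G11 Φ ψ₁) (x₀.1, w₀) (0, b)) - 0 = _
    rw [sub_zero]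
  have hinj : Function.Injective fun b : N => fderiv ℝ Fn (x₀, w₀) (0, b) := by
    intro b b' hbb
    simp only [hder] at hbb
    have h1 : P₂ (fderiv ℝ (G11 Φ ψ₁) (x₀.1, w₀) (0, b - b')) = 0 := by
      have h2 : ((0 : N), b - b') = (0, b) - (0, b') := by simp
      rw [h2, map_sub, map_sub, hbb, sub_self]
    have h3 := tangent_G11 h hp₁ (y := (x₀.1, w₀)) hx1 (0, b - b')
    have h4 := (hc₂.of_TSet (by rw [h0']; exact hc₂.maps _ hx2) h3).2.2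
    rw [h1, map_zero] at h4
    have h5 : b - b' = 0 := hnd (a₁ := b - b') (a₂ := 0) (by
      show fderiv ℝ (G11 Φ ψ₁) (x₀.1, w₀) (0, b - b') = fderiv ℝ (G11 Φ ψ₁) (x₀.1, w₀) (0, 0)
      rw [← h4]
      have h6 : ((0 : N), (0 : N)) = 0 := rfl
      rw [h6, map_zero])
    exact sub_eq_zero.1 h5
  have hbij : Function.Bijective fun b : N => fderiv ℝ Fn (x₀, w₀) (0, b) := by
    let L : N →ₗ[ℝ] N :=
      ((fderiv ℝ Fn (x₀, w₀)) ∘L (ContinuousLinearMap.inr ℝ (N × N) N)).toLinearMap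
    have hL : Function.Injective L := hinj
    exact ⟨hinj, LinearMap.injective_iff_surjective.1 hL⟩
  obtain ⟨O, V, β, hO, hxO, hV, hwV, hOV, hβ, hβ0, hβ1⟩ := exists_implicit hDo hF hmem hbij
  rw [hF0] at hβ1
  refine ⟨O, V, β, ⟨hO, hV, hβ, fun x hx => ?_, fun x hx w hw hw1 => ?_⟩, hxO, hwV, hβ0⟩
  · obtain ⟨g1, g2, -⟩ := hβ1 x hx
    have g3 : (x, β x) ∈ D := hOV ⟨hx, g1⟩
    refine ⟨g3.1.1, g3.1.2, g1, ?_⟩
    have g4 : P₂ (G11 Φ ψ₁ (x.1, β x)) = x.2 := sub_eq_zero.1 g2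
    have g5 := (hc₂.right (G11 Φ ψ₁ (x.1, β x)) (mem_G1 h hp₁ g3.1.1 _ 1) g3.2).2
    rw [g4] at g5
    exact g5.symm
  · obtain ⟨-, -, g2⟩ := hβ1 x hx
    have g3 : (x, w) ∈ D := hOV ⟨hx, hw⟩
    refine g2 w hw ?_
    show P₂ (G11 Φ ψ₁ (x.1, w)) - x.2 = 0
    have g4 : G11 Φ ψ₁ (x.1, w) = ψ₂ x.2 := hw1
    rw [g4, hc₂.left _ g3.1.2, sub_self]

/-- The geodesics of a family of initial data. -/
noncomputable def cF (Φ : ℝ → E × E → E × E) (ψ₁ : N → E) (κ : N × N → N) (x : N × N) (t : ℝ) : E :=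
  G1 Φ ψ₁ (x.1, κ x) t

theorem smooth_cF (h : GFlow F S A K K₂ Φ) (hp₁ : Patch S Ω₁ ψ₁ P₁ W₁) {O : Set (N × N)}
    (hO : IsOpen O) {κ : N × N → N} (hκ : ContDiffOn ℝ ∞ κ O) (hm : ∀ x ∈ O, x.1 ∈ Ω₁) :
    ContDiffOn ℝ ∞ (fun y : (N × N) × ℝ => cF Φ ψ₁ κ y.1 y.2) (O ×ˢ univ) ∧
    ContDiffOn ℝ ∞ (fun y : (N × N) × ℝ => deriv (cF Φ ψ₁ κ y.1) y.2) (O ×ˢ univ) := by
  have h1 : ∀ y ∈ O ×ˢ (univ : Set ℝ), ContDiffAt ℝ ∞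
      (fun y : (N × N) × ℝ => (((y.1.1, κ y.1), y.2) : (N × N) × ℝ)) y := by
    intro y hy
    have h2 : ContDiffAt ℝ ∞ κ y.1 := contDiffAt_of_open hO hκ hy.1
    have h3 : ContDiffAt ℝ ∞ (fun y : (N × N) × ℝ => κ y.1) y := ContDiffAt.comp y h2 contDiffAt_fst
    exact ((contDiffAt_fst.fst).prodMk h3).prodMk contDiffAt_snd
  constructor
  · intro y hy
    exact (ContDiffAt.comp y (contDiffAt_G1 h hp₁ (x := ((y.1.1, κ y.1), y.2)) (hm y.1 hy.1)).1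
      (h1 y hy)).contDiffWithinAt
  · intro y hy
    exact (ContDiffAt.comp y (contDiffAt_G1 h hp₁ (x := ((y.1.1, κ y.1), y.2)) (hm y.1 hy.1)).2
      (h1 y hy)).contDiffWithinAt

/-- Nondegenerate connecting geodesics. -/
def Cfg (Φ : ℝ → E × E → E × E) (Ω₁ Ω₂ : Set N) (ψ₁ ψ₂ : N → E) (x : N × N) (w : N) : Prop :=
  x.1 ∈ Ω₁ ∧ x.2 ∈ Ω₂ ∧ G1 Φ ψ₁ (x.1, w) 1 = ψ₂ x.2 ∧ Nondeg Φ ψ₁ x.1 w

/-- Nondegeneracy persists. -/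
theorem nondeg_eventually (h : GFlow F S A K K₂ Φ) (hp₁ : Patch S Ω₁ ψ₁ P₁ W₁) {B : Type*}
    [TopologicalSpace B] {b₀ : B} {c : B → N × N} (hc : ContinuousAt c b₀)
    (hΩ : (c b₀).1 ∈ Ω₁) (hnd : Nondeg Φ ψ₁ (c b₀).1 (c b₀).2) :
    ∀ᶠ b in 𝓝 b₀, Nondeg Φ ψ₁ (c b).1 (c b).2 := by
  have h1 : ContinuousAt (fun y => fderiv ℝ (G11 Φ ψ₁) y) (c b₀) :=
    ((contDiffAt_G11 h hp₁ (y := c b₀) hΩ).fderiv_right (m := ∞) (by norm_num)).continuousAt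
  have h2 : ContinuousAt (fun b => (fderiv ℝ (G11 Φ ψ₁) (c b)) ∘L
      (ContinuousLinearMap.inr ℝ N N)) b₀ :=
    (ContinuousAt.comp (g := fun y => fderiv ℝ (G11 Φ ψ₁) y) h1 hc).clm_comp continuousAt_const
  have h3 : IsOpen {L : N →L[ℝ] E | Function.Injective L} :=
    ContinuousLinearMap.isOpen_injective
  exact h2.preimage_mem_nhds (h3.mem_nhds hnd)

end Pool.Agent.H59.ND
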