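import Pool.Agent.H59.ND.Transfer
import Pool.Agent.H77.ND.Main

/-!
# From the patches to the statement for `S`
-/

set_option autoImplicit false

open scoped InnerProductSpace Topology ContDiff
open Set Filter

namespace Pool.Agent.H59.ND

open Pool.Agent.H91.GE Pool.Agent.H59.LV

variable {E F N : Type*} [NormedAddCommGroup E] [InnerProductSpace ℝ E] [FiniteDimensional ℝ E]
  [NormedAddCommGroup F] [InnerProductSpace ℝ F] [FiniteDimensional ℝ F]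
  [NormedAddCommGroup N] [NormedSpace ℝ N] [FiniteDimensional ℝ N]
  {S : Set E} {A : E × E → E} {K K₂ : NNReal} {Φ : ℝ → E × E → E × E}

/-- There are arbitrarily long unit speed geodesics which start near `(x, u)` and end near
`(y, v)`. -/
def LeadsTo (S : Set E) (x u y v : E) : Prop :=
  ∀ ε > 0, ∀ T : ℝ, ∃ γ : ℝ → E, IsGeo S γ ∧ ‖deriv γ 0‖ = 1 ∧ ‖γ 0 - x‖ < ε ∧
    ‖deriv γ 0 - u‖ < ε ∧ ∃ t > T, ‖γ t - y‖ < ε ∧ ‖deriv γ t - v‖ < ε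

theorem LeadsTo.leads (h : GFlow F S A K K₂ Φ) {x u y v : E} (hl : LeadsTo S x u y v) :
    Leads Φ S (x, u) (y, v) := by
  intro O O' hO hO' hxO hyO T
  obtain ⟨ε₁, hε₁, h1⟩ := Metric.isOpen_iff.1 hO _ hxO
  obtain ⟨ε₂, hε₂, h2⟩ := Metric.isOpen_iff.1 hO' _ hyO
  obtain ⟨γ, hγ, hγ1, g1, g2, t, ht, g3, g4⟩ := hl (min ε₁ ε₂) (lt_min hε₁ hε₂) T
  refine ⟨t, ht, (γ 0, deriv γ 0), hγ.mem_TSet 0, hγ1, h1 ?_, ?_⟩
  · rw [Metric.mem_ball, Prod.dist_eq, dist_eq_norm, dist_eq_norm]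
    exact max_lt (g1.trans_le (min_le_left _ _)) (g2.trans_le (min_le_left _ _))
  · rw [← h.of_geo hγ (by rw [hγ1]; norm_num) t]
    refine h2 ?_
    rw [Metric.mem_ball, Prod.dist_eq, dist_eq_norm, dist_eq_norm]
    exact max_lt (g3.trans_le (min_le_right _ _)) (g4.trans_le (min_le_right _ _))

theorem final (N : Type*) [NormedAddCommGroup N] [NormedSpace ℝ N] [FiniteDimensional ℝ N]
    (hdim : Module.finrank ℝ E = Module.finrank ℝ F + Module.finrank ℝ N)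
    (hN : 1 < Module.finrank ℝ N) (hS : IsCompact S) (hsub : IsSub F S) (hsec : Secure S) :
    IsMeagre {x : S × S | ¬ ∃ L : Set (E →L[ℝ] E), L.Finite ∧
      (∀ l ∈ L, ∀ u, ((x.1 : E), u) ∈ TSet S → ((x.2 : E), l u) ∈ TSet S ∧ (l u = 0 → u = 0)) ∧
      ∀ u v, LeadsTo S x.1 u x.2 v → ∃ l ∈ L, ∃ c : ℝ, v = c • l u} ∧
    ∀ γ : ℝ → E, IsGeo S γ → ‖deriv γ 0‖ = 1 → ∀ O : Set (E × E), IsOpen O →
      (O ∩ UT S).Nonempty → ∃ w ∈ O ∩ UT S, w ∉ closure (range fun t => (γ t, deriv γ t)) := by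
  obtain ⟨A, K, K₂, Φ, h⟩ := exists_GFlow hS hsub
  have hm := meagre_transfer (N := N) hdim hsub (H77.ND.Concl Φ S)
    fun Ω₁ Ω₂ ψ₁ ψ₂ P₁ P₂ W₁ W₂ hp₁ hp₂ => H77.ND.chart_form hdim hN h hsec hp₁ hp₂
  refine ⟨hm.mono ?_, ?_⟩
  · rintro x hx ⟨L, hL, hL0, hL'⟩
    exact hx ⟨L, hL, hL0, fun u v huv => hL' u v (huv.leads h)⟩
  · intro γ hγ hγ1 O hO hne
    have hm' : IsMeagre {x : S × S | ¬ ∃ L : Set (E →L[ℝ] E), L.Finite ∧
        ∀ u v, Leads Φ S (x.1, u) (x.2, v) → ∃ l ∈ L, ∃ c : ℝ, v = c • l u} := by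
      refine hm.mono ?_
      rintro x hx ⟨L, hL, -, hL'⟩
      exact hx ⟨L, hL, hL'⟩
    have h1 := not_dense (N := N) hdim hN h hm' hO hne (w₀ := (γ 0, deriv γ 0))
      ⟨hγ.mem_TSet 0, hγ1⟩
    obtain ⟨w, hw, hw'⟩ := not_subset.1 h1
    refine ⟨w, hw, ?_⟩
    have h2 : (fun t => (γ t, deriv γ t)) = fun t => Φ t (γ 0, deriv γ 0) := by
      funext t
      exact h.of_geo hγ (by rw [hγ1]; norm_num) t
    rw [h2]; exact hw'

end Pool.Agent.H59.ND
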