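import Pool.Agent.H59.ND.Resid
import Pool.Agent.H91.GS.Loops

/-!
# Directions of long nondegenerate geodesics near a pair of vectors related by the flow; loops
-/

set_option autoImplicit false

open scoped InnerProductSpace Topology ContDiff
open Set Filter

namespace Pool.Agent.H59.ND

open Pool.Agent.H91.GE Pool.Agent.H59.LV

variable {E F N : Type*} [NormedAddCommGroup E] [InnerProductSpace ℝ E] [FiniteDimensional ℝ E]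
  [NormedAddCommGroup F] [InnerProductSpace ℝ F] [FiniteDimensional ℝ F]
  [NormedAddCommGroup N] [NormedSpace ℝ N] [FiniteDimensional ℝ N]
  {S : Set E} {A : E × E → E} {K K₂ : NNReal} {Φ : ℝ → E × E → E × E}
  {Ω₁ Ω₂ : Set N} {ψ₁ ψ₂ : N → E} {P₁ P₂ : E →L[ℝ] N} {W₁ W₂ : Set E}

/-- Arbitrarily long orbit segments lead from near `w` to near `w'`. -/
def Leads (Φ : ℝ → E × E → E × E) (S : Set E) (w w' : E × E) : Prop :=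
  ∀ O O' : Set (E × E), IsOpen O → IsOpen O' → w ∈ O → w' ∈ O' → ∀ T : ℝ,
    ∃ t > T, ∃ ξ ∈ TSet S, ‖ξ.2‖ = 1 ∧ ξ ∈ O ∧ Φ t ξ ∈ O'

/-- Pairs of points joined by a nondegenerate geodesic longer than `T` with unit directions in `O`. -/
def UO (Φ : ℝ → E × E → E × E) (Ω₁ Ω₂ : Set N) (ψ₁ ψ₂ : N → E) (O : Set (E × E)) (T : ℝ) :
    Set (N × N) :=
  {x | ∃ w, Cfg Φ Ω₁ Ω₂ ψ₁ ψ₂ x w ∧ w ≠ 0 ∧ T < ‖fderiv ℝ ψ₁ x.1 w‖ ∧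
    (‖fderiv ℝ ψ₁ x.1 w‖⁻¹ • fderiv ℝ ψ₁ x.1 w,
      ‖fderiv ℝ ψ₁ x.1 w‖⁻¹ • deriv (G1 Φ ψ₁ (x.1, w)) 1) ∈ O}

theorem isOpen_UO (h : GFlow F S A K K₂ Φ) (hp₁ : Patch S Ω₁ ψ₁ P₁ W₁) (hp₂ : Patch S Ω₂ ψ₂ P₂ W₂)
    {O : Set (E × E)} (hO : IsOpen O) (T : ℝ) : IsOpen (UO Φ Ω₁ Ω₂ ψ₁ ψ₂ O T) := by
  rw [isOpen_iff_mem_nhds]
  rintro x ⟨w, ⟨h1, h2, h3, h4⟩, hw0, h5, h6⟩
  obtain ⟨D, V, κ, hbr, hxO, hwV, hκ⟩ := exists_br h hp₁ hp₂ h1 h2 h3 h4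
  have hκc : ContinuousAt κ x := (contDiffAt_of_open hbr.isOpen hbr.smooth hxO).continuousAt
  have hcc : ContinuousAt (fun x : N × N => (x.1, κ x)) x := continuousAt_fst.prodMk hκc
  have e1 := nondeg_eventually h hp₁ (c := fun x : N × N => (x.1, κ x)) hcc h1 (by
    show Nondeg Φ ψ₁ x.1 (κ x)
    rw [hκ]; exact h4)
  have e0 : ∀ᶠ x' in 𝓝 x, κ x' ≠ 0 := hκc.eventually_ne (by rw [hκ]; exact hw0)
  have hv0 : fderiv ℝ ψ₁ x.1 w ≠ 0 := fun h0 => hw0 (Patch.inj hp₁ h1 (h0.trans (map_zero _).symm))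
  have hc1 : ContinuousAt (fun x' : N × N => fderiv ℝ ψ₁ x'.1 (κ x')) x :=
    (ContinuousAt.comp (g := fderiv ℝ ψ₁) (f := fun x' : N × N => x'.1)
      (contDiffAt_of_open hp₁.isOpen hp₁.fderiv_smooth h1).continuousAt continuousAt_fst).clm_apply
      hκc
  have hc2 : ContinuousAt (fun x' : N × N => deriv (G1 Φ ψ₁ (x'.1, κ x')) 1) x := by
    have g1 := (contDiffAt_G1 h hp₁ (x := ((x.1, κ x), 1)) h1).2.continuousAt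
    have g2 : ContinuousAt (fun x' : N × N => (((x'.1, κ x'), 1) : (N × N) × ℝ)) x :=
      hcc.prodMk continuousAt_const
    exact ContinuousAt.comp (g := fun y : (N × N) × ℝ => deriv (G1 Φ ψ₁ y.1) y.2)
      (f := fun x' : N × N => (((x'.1, κ x'), 1) : (N × N) × ℝ)) (x := x) g1 g2
  have e2 : ∀ᶠ x' : N × N in 𝓝 x, T < ‖fderiv ℝ ψ₁ x'.1 (κ x')‖ := by
    refine hc1.norm.eventually_const_lt ?_
    show T < ‖fderiv ℝ ψ₁ x.1 (κ x)‖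
    rw [hκ]; exact h5
  have e3 : ∀ᶠ x' : N × N in 𝓝 x, (‖fderiv ℝ ψ₁ x'.1 (κ x')‖⁻¹ • fderiv ℝ ψ₁ x'.1 (κ x'),
      ‖fderiv ℝ ψ₁ x'.1 (κ x')‖⁻¹ • deriv (G1 Φ ψ₁ (x'.1, κ x')) 1) ∈ O := by
    have hn : ContinuousAt (fun x' : N × N => ‖fderiv ℝ ψ₁ x'.1 (κ x')‖⁻¹) x :=
      hc1.norm.inv₀ (by
        show ‖fderiv ℝ ψ₁ x.1 (κ x)‖ ≠ 0
        rw [hκ]; exact norm_ne_zero_iff.2 hv0)
    refine ((hn.smul hc1).prodMk (hn.smul hc2)).preimage_mem_nhds (hO.mem_nhds ?_)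
    show (‖fderiv ℝ ψ₁ x.1 (κ x)‖⁻¹ • fderiv ℝ ψ₁ x.1 (κ x),
      ‖fderiv ℝ ψ₁ x.1 (κ x)‖⁻¹ • deriv (G1 Φ ψ₁ (x.1, κ x)) 1) ∈ O
    rw [hκ]; exact h6
  filter_upwards [e0, e1, e2, e3, hbr.isOpen.mem_nhds hxO] with y hy0 hy1 hy2 hy3 hy4
  obtain ⟨g1, g2, -, g3⟩ := hbr.mem y hy4
  exact ⟨κ y, ⟨g1, g2, g3, hy1⟩, hy0, hy2, hy3⟩

theorem lead_mem_closure (hdim : Module.finrank ℝ E = Module.finrank ℝ F + Module.finrank ℝ N)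
    (h : GFlow F S A K K₂ Φ) (hp₁ : Patch S Ω₁ ψ₁ P₁ W₁) (hp₂ : Patch S Ω₂ ψ₂ P₂ W₂) {x : N × N}
    (hx1 : x.1 ∈ Ω₁) (hx2 : x.2 ∈ Ω₂) {u v : E}
    (hl : Leads Φ S (ψ₁ x.1, u) (ψ₂ x.2, v)) {O : Set (E × E)} (hO : IsOpen O) (huv : (u, v) ∈ O)
    (T : ℝ) : x ∈ closure (UO Φ Ω₁ Ω₂ ψ₁ ψ₂ O T) := by
  rw [mem_closure_iff_nhds]
  intro Nx hN
  obtain ⟨p, q⟩ := x
  simp only at hx1 hx2 hl
  rw [nhds_prod_eq] at hN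
  obtain ⟨N₁, hN₁, N₂, hN₂, hNN⟩ := mem_prod_iff.1 hN
  obtain ⟨M₁, hM₁N, hM₁o, hpM⟩ := mem_nhds_iff.1 hN₁
  obtain ⟨M₂, hM₂N, hM₂o, hqM⟩ := mem_nhds_iff.1 hN₂
  have hOn := hO.mem_nhds huv
  rw [nhds_prod_eq] at hOn
  obtain ⟨C₁, hC₁, C₂, hC₂, hCC⟩ := mem_prod_iff.1 hOn
  obtain ⟨B₁, hB₁C, hB₁o, huB⟩ := mem_nhds_iff.1 hC₁
  obtain ⟨B₂, hB₂C, hB₂o, hvB⟩ := mem_nhds_iff.1 hC₂
  set U : Set (E × E) := {w | w.1 ∈ W₁} ∩ ({w | P₁ w.1 ∈ M₁} ∩ {w | w.2 ∈ B₁}) with hU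
  set V : Set (E × E) := {w | w.1 ∈ W₂} ∩ ({w | P₂ w.1 ∈ M₂} ∩ {w | w.2 ∈ B₂}) with hV
  have hUo : IsOpen U := (hp₁.V_open.preimage continuous_fst).inter
      ((hM₁o.preimage (P₁.continuous.comp continuous_fst)).inter (hB₁o.preimage continuous_snd))
  have hVo : IsOpen V := (hp₂.V_open.preimage continuous_fst).inter
      ((hM₂o.preimage (P₂.continuous.comp continuous_fst)).inter (hB₂o.preimage continuous_snd))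
  obtain ⟨t, ht, w', hw'T, hw'1, hw'U, hΦV⟩ := hl U V hUo hVo
    ⟨hp₁.maps p hx1, by
      show P₁ (ψ₁ p) ∈ M₁
      rw [hp₁.left p hx1]; exact hpM, huB⟩
    ⟨hp₂.maps q hx2, by
      show P₂ (ψ₂ q) ∈ M₂
      rw [hp₂.left q hx2]; exact hqM, hvB⟩ (max T 0)
  -- chart data of `w'`
  obtain ⟨hp'Ω, hψp', hder⟩ := hp₁.of_TSet (q := w'.1) (v := w'.2) hw'U.1 hw'T
  set p' := P₁ w'.1 with hp'
  set a' := P₁ w'.2 with ha'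
  have hw'e : w' = (ψ₁ p', fderiv ℝ ψ₁ p' a') := Prod.ext hψp'.symm hder.symm
  have hn : ‖fderiv ℝ ψ₁ p' a'‖ = 1 := by rw [hder]; exact hw'1
  have ha0 : a' ≠ 0 := by
    intro h0
    rw [h0, map_zero, norm_zero] at hn
    exact zero_ne_one hn
  have hcont : Continuous fun r => Φ r w' := h.flow.continuous_left w'
  have hIo : IsOpen (Ioi (max T 0) ∩ {r | Φ r w' ∈ V}) := isOpen_Ioi.inter (hVo.preimage hcont)
  obtain ⟨r, ⟨hrT, hrV⟩, hr0, hnd⟩ := exists_nondeg hdim h hp₁ (p := p') hp'Ω (w := a')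
    (by rw [hn]; norm_num) hIo ⟨t, ht, hΦV⟩
  have hrpos : 0 < r := (le_max_right T 0).trans_lt hrT
  have hmem := (h.mem hw'T (by rw [hw'1]; norm_num) r).1
  obtain ⟨hq'Ω, hψq', hder'⟩ := hp₂.of_TSet (q := (Φ r w').1) (v := (Φ r w').2) hrV.1 hmem
  have hT' : (ψ₁ p', fderiv ℝ ψ₁ p' a') ∈ TSet S := by rw [← hw'e]; exact hw'T
  have hG : G1 Φ ψ₁ (p', r • a') = fun s => Geo Φ (ψ₁ p') (fderiv ℝ ψ₁ p' a') (r * s) := by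
    funext s
    show Geo Φ (ψ₁ p') (fderiv ℝ ψ₁ p' (r • a')) s = _
    rw [map_smul, h.Geo_smul hT']
  have hGe := h.Geo_eq hT' one_pos (by rw [hn]; norm_num) r
  rw [one_mul, inv_one, one_smul, one_smul, ← hw'e] at hGe
  have hnr : ‖fderiv ℝ ψ₁ p' (r • a')‖ = r := by
    rw [map_smul, norm_smul, hn, mul_one, Real.norm_of_nonneg hrpos.le]
  refine ⟨(p', P₂ (Φ r w').1), hNN ⟨hM₁N hw'U.2.1, hM₂N hrV.2.1⟩, r • a',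
    ⟨hp'Ω, hq'Ω, ?_, hnd⟩, smul_ne_zero hr0 ha0, ?_, hCC ⟨hB₁C ?_, hB₂C ?_⟩⟩
  · show G1 Φ ψ₁ (p', r • a') 1 = ψ₂ (P₂ (Φ r w').1)
    rw [hG, hψq']
    show Geo Φ (ψ₁ p') (fderiv ℝ ψ₁ p' a') (r * 1) = _
    rw [mul_one]; exact hGe.1
  · show T < ‖fderiv ℝ ψ₁ p' (r • a')‖
    rw [hnr]; exact (le_max_left T 0).trans_lt hrT
  · show ‖fderiv ℝ ψ₁ p' (r • a')‖⁻¹ • fderiv ℝ ψ₁ p' (r • a') ∈ B₁
    rw [hnr, map_smul, smul_smul, inv_mul_cancel₀ hr0, one_smul, hder]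
    exact hw'U.2.2
  · show ‖fderiv ℝ ψ₁ p' (r • a')‖⁻¹ • deriv (G1 Φ ψ₁ (p', r • a')) 1 ∈ B₂
    have h1 := (h.isGeo_Geo hT').1
    have h2 := congrFun (deriv_affine h1 0 r) 1
    simp only [zero_add, mul_one] at h2
    rw [hnr, hG, h2, hGe.2, smul_smul, inv_mul_cancel₀ hr0, one_smul]
    exact hrV.2.2

/-- At residual pairs, all pairs of directions related by the flow are limits of pairs of directions
of long nondegenerate geodesics joining exactly the two points. -/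
theorem lead_residual (hdim : Module.finrank ℝ E = Module.finrank ℝ F + Module.finrank ℝ N)
    (h : GFlow F S A K K₂ Φ) (hp₁ : Patch S Ω₁ ψ₁ P₁ W₁) (hp₂ : Patch S Ω₂ ψ₂ P₂ W₂) :
    IsMeagre {x : N × N | x.1 ∈ Ω₁ ∧ x.2 ∈ Ω₂ ∧ ∃ u v, Leads Φ S (ψ₁ x.1, u) (ψ₂ x.2, v) ∧
      ∃ O : Set (E × E), IsOpen O ∧ (u, v) ∈ O ∧ ∃ T : ℝ, x ∉ UO Φ Ω₁ Ω₂ ψ₁ ψ₂ O T} := by
  set Bs := TopologicalSpace.countableBasis (E × E) with hBs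
  have hBc : Bs.Countable := TopologicalSpace.countable_countableBasis (E × E)
  have m1 : IsMeagre (⋃ b ∈ Bs, ⋃ n : ℕ, frontier (UO Φ Ω₁ Ω₂ ψ₁ ψ₂ b n)) := by
    have := hBc.to_subtype
    rw [biUnion_eq_iUnion]
    refine isMeagre_iUnion fun b => isMeagre_iUnion fun n => ?_
    have ho := isOpen_UO h hp₁ hp₂ (TopologicalSpace.isOpen_of_mem_countableBasis b.2) n
    have : IsNowhereDense (frontier (UO Φ Ω₁ Ω₂ ψ₁ ψ₂ (b : Set (E × E)) n)) := by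
      rw [isClosed_frontier.isNowhereDense_iff, ← frontier_compl]
      exact interior_frontier ho.isClosed_compl
    exact this.isMeagre
  refine m1.mono ?_
  rintro x ⟨hx1, hx2, u, v, hl, O, hO, huv, T, hT⟩
  obtain ⟨n, hn⟩ := exists_nat_ge T
  obtain ⟨b, hb, hub, hbO⟩ := (TopologicalSpace.isBasis_countableBasis (E × E)).mem_nhds_iff.1
    (hO.mem_nhds huv)
  have hbo := TopologicalSpace.isOpen_of_mem_countableBasis hb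
  refine mem_biUnion hb (mem_iUnion.2 ⟨n, ?_⟩)
  refine ⟨lead_mem_closure hdim h hp₁ hp₂ hx1 hx2 hl hbo hub n, fun hint => hT ?_⟩
  obtain ⟨w, g1, g2, g3, g4⟩ := interior_subset hint
  exact ⟨w, g1, g2, hn.trans_lt g3, hbO g4⟩

/-! ### Loops -/

/-- The relation geodesic through both points passing twice through the first one. -/
def RL2 (Φ : ℝ → E × E → E × E) (Ω₁ Ω₂ : Set N) (ψ₁ ψ₂ : N → E) : Set ((N × N) × (N × ℝ × ℝ)) :=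
  {b | (b.1.1 ∈ Ω₁ ∧ b.1.2 ∈ Ω₂) ∧ G1 Φ ψ₁ (b.1.1, b.2.1) b.2.2.1 = ψ₁ b.1.1 ∧
    G1 Φ ψ₁ (b.1.1, b.2.1) b.2.2.2 = ψ₂ b.1.2}

theorem closed_RL2 (h : GFlow F S A K K₂ Φ) (hp₁ : Patch S Ω₁ ψ₁ P₁ W₁)
    (hp₂ : Patch S Ω₂ ψ₂ P₂ W₂)
    {b : (N × N) × (N × ℝ × ℝ)} (hb : b ∈ closure (RL2 Φ Ω₁ Ω₂ ψ₁ ψ₂)) (hbD : b.1 ∈ Ω₁ ×ˢ Ω₂) :
    b ∈ RL2 Φ Ω₁ Ω₂ ψ₁ ψ₂ := by
  have hψ1 : ContinuousAt (fun b : (N × N) × (N × ℝ × ℝ) => ψ₁ b.1.1) b :=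
    ContinuousAt.comp (g := ψ₁) (f := fun b : (N × N) × (N × ℝ × ℝ) => b.1.1)
      (contDiffAt_of_open hp₁.isOpen hp₁.smooth hbD.1).continuousAt (by fun_prop)
  have hψ2 : ContinuousAt (fun b : (N × N) × (N × ℝ × ℝ) => ψ₂ b.1.2) b :=
    ContinuousAt.comp (g := ψ₂) (f := fun b : (N × N) × (N × ℝ × ℝ) => b.1.2)
      (contDiffAt_of_open hp₂.isOpen hp₂.smooth hbD.2).continuousAt (by fun_prop)
  refine ⟨hbD, eq_of_mem_closure hb ?_ hψ1 fun b hb => hb.2.1, eq_of_mem_closure hb ?_ hψ2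
    fun b hb => hb.2.2⟩
  · exact continuousAt_G1 h hp₁ (f := fun b : (N × N) × (N × ℝ × ℝ) => b.1.1)
      (g := fun b => b.2.1) (τ := fun b => b.2.2.1) (by fun_prop) (by fun_prop) (by fun_prop) hbD.1
  · exact continuousAt_G1 h hp₁ (f := fun b : (N × N) × (N × ℝ × ℝ) => b.1.1)
      (g := fun b => b.2.1) (τ := fun b => b.2.2.2) (by fun_prop) (by fun_prop) (by fun_prop) hbD.1

theorem loop_meagre (hN : 1 < Module.finrank ℝ N) (h : GFlow F S A K K₂ Φ)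
    (hsec : Secure S) (hp₁ : Patch S Ω₁ ψ₁ P₁ W₁) (hp₂ : Patch S Ω₂ ψ₂ P₂ W₂) :
    IsMeagre {x : N × N | x.1 ∈ Ω₁ ∧ x.2 ∈ Ω₂ ∧ Loop S (ψ₁ x.1) (ψ₂ x.2)} := by
  refine (meagre_of_closedRel (R := RL2 Φ Ω₁ Ω₂ ψ₁ ψ₂) (D := Ω₁ ×ˢ Ω₂)
    (hp₁.isOpen.prod hp₂.isOpen) fun b hb hbD => closed_RL2 h hp₁ hp₂ hb hbD).mono ?_
  rintro ⟨p, q⟩ ⟨hpΩ, hqΩ, γ, hγ, hd, h0, ⟨t, ht, hta⟩, s, hs⟩
  simp only at hpΩ hqΩ h0 hta hs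
  obtain ⟨-, -, hder⟩ := hp₁.of_TSet (q := γ 0) (v := deriv γ 0) (by
    rw [h0]; exact hp₁.maps p hpΩ) (hγ.mem_TSet 0)
  set w := P₁ (deriv γ 0) with hw
  rw [h0, hp₁.left p hpΩ] at hder
  have hγe : γ = G1 Φ ψ₁ (p, w) := by
    have := h.eq_Geo hγ
    rw [h0, ← hder] at this
    exact this
  have hw0 : w ≠ 0 := by
    intro h1
    rw [h1, map_zero] at hder
    exact hd hder.symm
  have e1 : G1 Φ ψ₁ (p, w) t = ψ₁ p := by rw [← hγe]; exact hta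
  have e2 : G1 Φ ψ₁ (p, w) s = ψ₂ q := by rw [← hγe]; exact hs
  refine ⟨⟨hpΩ, hqΩ⟩, (w, t, s), ⟨⟨hpΩ, hqΩ⟩, e1, e2⟩, ?_⟩
  set T : ℝ := ‖t • fderiv ℝ ψ₁ p w‖ + 1 with hT
  set V : Set (N × ℝ × ℝ) := {y | y.1 ≠ 0} ∩ ({y | y.2.1 ≠ 0} ∩
    {y | ‖y.2.1 • fderiv ℝ ψ₁ p y.1‖ < T}) with hV
  have hVo : IsOpen V := by
    refine (isOpen_ne.preimage continuous_fst).inter
      ((isOpen_ne.preimage (continuous_snd.fst)).inter ?_)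
    have hc : Continuous fun y : N × ℝ × ℝ => ‖y.2.1 • fderiv ℝ ψ₁ p y.1‖ := by fun_prop
    exact isOpen_lt hc continuous_const
  refine ⟨V, hVo.mem_nhds ⟨hw0, ht, by
    show ‖t • fderiv ℝ ψ₁ p w‖ < T
    rw [hT]; linarith⟩, fun hev => ?_⟩
  have hψp : ψ₁ p ∈ S := hp₁.mem p hpΩ
  have hfin := finite_geodesics h.compact h.sub hsec hψp hψp T
  set 𝓕 : Set (ℝ → E) := {γ : ℝ → E | IsGeo S γ ∧ γ 0 = ψ₁ p ∧ γ 1 = ψ₁ p ∧ deriv γ 0 ≠ 0 ∧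
    ‖deriv γ 0‖ ≤ T} with h𝓕
  have hcount : ((fun γ : ℝ → E => fun τ => P₂ (γ τ)) '' 𝓕).Countable := hfin.countable.image _
  refine not_covered hN (q := q) hcount ?_ ?_
  · rintro _ ⟨γ, hγ, rfl⟩
    exact P₂.contDiff.comp (hγ.1.smooth.of_le (by exact_mod_cast le_top))
  · have hc : ContinuousAt (fun q' : N => ((p, q') : N × N)) q := by fun_prop
    have hev' := hc.eventually hev
    filter_upwards [hev', hp₂.isOpen.mem_nhds hqΩ] with q' hq' hq'Ω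
    obtain ⟨⟨w', t', s'⟩, ⟨v1, v2, v3⟩, -, f1, f2⟩ := hq'
    simp only [mem_setOf_eq] at v1 v2 v3 f1 f2
    obtain ⟨g1, g2, g3⟩ := isGeo_G1 h hp₁ hpΩ w'
    refine ⟨_, ⟨fun τ => G1 Φ ψ₁ (p, w') (0 + t' * τ), ⟨g1.affine 0 t', ?_, ?_, ?_, ?_⟩, rfl⟩,
      s' / t', ?_⟩
    · show G1 Φ ψ₁ (p, w') (0 + t' * 0) = ψ₁ p
      rw [mul_zero, add_zero, g2]
    · show G1 Φ ψ₁ (p, w') (0 + t' * 1) = ψ₁ p
      rw [mul_one, zero_add, f1]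
    · rw [deriv_affine g1]
      show t' • deriv (G1 Φ ψ₁ (p, w')) (0 + t' * 0) ≠ 0
      rw [mul_zero, add_zero, g3]
      refine smul_ne_zero v2 fun h0 => v1 (Patch.inj hp₁ hpΩ (h0.trans (map_zero _).symm))
    · rw [deriv_affine g1]
      show ‖t' • deriv (G1 Φ ψ₁ (p, w')) (0 + t' * 0)‖ ≤ T
      rw [mul_zero, add_zero, g3]; exact v3.le
    · show P₂ (G1 Φ ψ₁ (p, w') (0 + t' * (s' / t'))) = q'
      rw [zero_add, mul_div_cancel₀ _ v2, f2, hp₂.left q' hq'Ω]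

theorem loop_meagre' (hN : 1 < Module.finrank ℝ N) (h : GFlow F S A K K₂ Φ)
    (hsec : Secure S) (hp₁ : Patch S Ω₁ ψ₁ P₁ W₁) (hp₂ : Patch S Ω₂ ψ₂ P₂ W₂) :
    IsMeagre {x : N × N | x.1 ∈ Ω₁ ∧ x.2 ∈ Ω₂ ∧ Loop S (ψ₂ x.2) (ψ₁ x.1)} := by
  have h1 := loop_meagre hN h hsec hp₂ hp₁
  have h2 := h1.preimage_of_isOpenMap (f := Prod.swap) continuous_swap
    (Homeomorph.prodComm N N).isOpenMap
  refine h2.mono ?_
  rintro x ⟨g1, g2, g3⟩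
  exact ⟨g2, g1, g3⟩

theorem same_geo (h : GFlow F S A K K₂ Φ) {γ η : ℝ → E} (hγ : IsGeo S γ) (hη : IsGeo S η)
    {s s' c : ℝ} (h0 : γ s = η s') (h1 : deriv η s' = c • deriv γ s) (t : ℝ) :
    η (s' + t) = γ (s + c * t) := by
  have h2 := h.Geo_add hη s' 1 t
  have h3 := h.Geo_add hγ s c t
  rw [one_smul, one_mul, h1, ← h0] at h2
  rw [← h2, h3]

theorem indep_of_ne (h : GFlow F S A K K₂ Φ) (hp₁ : Patch S Ω₁ ψ₁ P₁ W₁) {x : N × N}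
    (hl : ¬ Loop S (ψ₁ x.1) (ψ₂ x.2)) (hl' : ¬ Loop S (ψ₂ x.2) (ψ₁ x.1)) {w w' : N}
    (hx1 : x.1 ∈ Ω₁) (hw : G1 Φ ψ₁ (x.1, w) 1 = ψ₂ x.2) (hw' : G1 Φ ψ₁ (x.1, w') 1 = ψ₂ x.2)
    (hw0 : w ≠ 0) (hw0' : w' ≠ 0) (hne : w ≠ w') {s s' : ℝ}
    (he : G1 Φ ψ₁ (x.1, w) s = G1 Φ ψ₁ (x.1, w') s') :
    Indep (deriv (G1 Φ ψ₁ (x.1, w)) s) (deriv (G1 Φ ψ₁ (x.1, w')) s') := by
  obtain ⟨g1, g2, g3⟩ := isGeo_G1 h hp₁ hx1 w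
  obtain ⟨k1, k2, k3⟩ := isGeo_G1 h hp₁ hx1 w'
  set γ := G1 Φ ψ₁ (x.1, w) with hγ
  set η := G1 Φ ψ₁ (x.1, w') with hη
  have hd : ∀ u : N, u ≠ 0 → fderiv ℝ ψ₁ x.1 u ≠ 0 := fun u hu h0 =>
    hu (Patch.inj hp₁ hx1 (h0.trans (map_zero _).symm))
  have hγ0 : deriv γ 0 ≠ 0 := by rw [g3]; exact hd w hw0
  have hη0 : deriv η 0 ≠ 0 := by rw [k3]; exact hd w' hw0'
  have hγs : ∀ t, deriv γ t ≠ 0 := g1.deriv_ne S hγ0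
  have hηs : ∀ t, deriv η t ≠ 0 := k1.deriv_ne S hη0
  intro a b hab
  rcases eq_or_ne b 0 with hb | hb
  · rw [hb, zero_smul] at hab
    exact ⟨(smul_eq_zero.1 hab).resolve_right (hγs s), hb⟩
  exfalso
  obtain ⟨c, hc⟩ : ∃ c : ℝ, c = b⁻¹ * a := ⟨_, rfl⟩
  have h1 : deriv η s' = c • deriv γ s := by
    rw [hc, mul_smul, hab, smul_smul, inv_mul_cancel₀ hb, one_smul]
  have h2 := fun t => same_geo h g1 k1 he h1 t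
  have h3 : s - c * s' = 0 := by
    by_contra hne0
    refine hl ⟨γ, g1, hγ0, g2, ⟨s - c * s', hne0, ?_⟩, 1, hw⟩
    have h4 := h2 (-s')
    rw [add_neg_cancel, k2] at h4
    rw [h4]; ring_nf
  have h4 : γ c = ψ₂ x.2 := by
    have h5 := h2 (1 - s')
    rw [show s' + (1 - s') = 1 by ring, hw'] at h5
    rw [h5]
    congr 1
    linear_combination -h3
  have h5 : c = 1 := by
    by_contra hne1
    have h6 : IsGeo S (fun t => γ (1 + 1 * t)) := g1.affine 1 1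
    have h7 := deriv_affine g1 1 1
    refine hl' ⟨fun t => γ (1 + 1 * t), h6, ?_, ?_, ⟨c - 1, sub_ne_zero.2 hne1, ?_⟩, -1, ?_⟩
    · rw [h7]
      show (1 : ℝ) • deriv γ (1 + 1 * 0) ≠ 0
      rw [one_smul]; exact hγs _
    · show γ (1 + 1 * 0) = ψ₂ x.2
      rw [mul_zero, add_zero]; exact hw
    · show γ (1 + 1 * (c - 1)) = ψ₂ x.2
      rw [← h4]; ring_nf
    · show γ (1 + 1 * (-1)) = ψ₁ x.1
      rw [← g2]; ring_nf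
  rw [h5] at h3
  have h6 : s = s' := by linarith
  have h7 : η = γ := by
    funext t
    have h8 := h2 (t - s')
    rw [h5, show s' + (t - s') = t by ring, h6, show s' + 1 * (t - s') = t by ring] at h8
    exact h8
  have h8 : fderiv ℝ ψ₁ x.1 w = fderiv ℝ ψ₁ x.1 w' := by rw [← g3, ← k3, h7]
  exact hne (Patch.inj hp₁ hx1 h8)

end Pool.Agent.H59.ND
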