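import Pool.Agent.H59.ND.Base

/-!
# Conjugate times are isolated, in every dimension
-/

set_option autoImplicit false

open scoped InnerProductSpace Topology ContDiff
open Set Filter

namespace Pool.Agent.H59.ND

open Pool.Agent.H91.GE Pool.Agent.H59.LV

variable {E F N : Type*} [NormedAddCommGroup E] [InnerProductSpace ℝ E] [FiniteDimensional ℝ E]
  [NormedAddCommGroup F] [InnerProductSpace ℝ F] [FiniteDimensional ℝ F]
  [NormedAddCommGroup N] [NormedSpace ℝ N] [FiniteDimensional ℝ N]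
  {S : Set E} {A : E × E → E} {K K₂ : NNReal} {Φ : ℝ → E × E → E × E}
  {Ω : Set N} {ψ : N → E} {P : E →L[ℝ] N} {W : Set E}

theorem inj_fderiv (h : GFlow F S A K K₂ Φ) (t : ℝ) (w : E × E) :
    Function.Injective (fderiv ℝ (Φ t) w) := by
  intro ξ η hξ
  have h1 : ∀ ζ, fderiv ℝ (Φ (-t)) (Φ t w) (fderiv ℝ (Φ t) w ζ) = ζ := by
    intro ζ
    rw [← h.flow.fderiv_add h.vf (-t) t w ζ, neg_add_cancel]
    have h2 : Φ 0 = id := funext h.flow.zero
    rw [h2, fderiv_id]; rfl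
  rw [← h1 ξ, ← h1 η, hξ]

theorem nondeg_of (h : GFlow F S A K K₂ Φ) (hp : Patch S Ω ψ P W) {p : N} (hpΩ : p ∈ Ω)
    {w : N} (hw2 : ‖fderiv ℝ ψ p w‖ < 2) {t : ℝ} (ht : t ≠ 0)
    (hinj : ∀ b, (fderiv ℝ (Φ t) (ψ p, fderiv ℝ ψ p w) (0, fderiv ℝ ψ p b)).1 = 0 → b = 0) :
    Nondeg Φ ψ p (t • w) := by
  have key : ∀ b, fderiv ℝ (G11 Φ ψ) (p, t • w) (0, b) = 0 → b = 0 := by
    intro b hb
    have h1 : HasDerivAt (fun s : ℝ => ((p, t • w + s • b) : N × N)) (0, b) 0 := by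
      have h3 : HasDerivAt (fun s : ℝ => t • w + s • b) b 0 := by
        simpa using ((hasDerivAt_id (0 : ℝ)).smul_const b).const_add (t • w)
      exact (hasDerivAt_const (0 : ℝ) p).prodMk h3
    have h2 : HasDerivAt (fun s : ℝ => G11 Φ ψ (p, t • w + s • b)) 0 0 := by
      have h3 : HasFDerivAt (G11 Φ ψ) (fderiv ℝ (G11 Φ ψ) (p, t • w)) (p, t • w + (0 : ℝ) • b) := by
        rw [zero_smul, add_zero]
        exact ((contDiffAt_G11 h hp (y := (p, t • w)) hpΩ).differentiableAt (by simp)).hasFDerivAt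
      have h4 := h3.comp_hasDerivAt (0 : ℝ) h1
      rw [hb] at h4
      exact h4
    set v := fderiv ℝ ψ p w with hv
    set u := fderiv ℝ ψ p (t⁻¹ • b) with hu
    have h3 : HasDerivAt (fun s : ℝ => ((ψ p, v + s • u) : E × E)) (0, u) 0 := by
      have h4 : HasDerivAt (fun s : ℝ => v + s • u) u 0 := by
        simpa using ((hasDerivAt_id (0 : ℝ)).smul_const u).const_add v
      exact (hasDerivAt_const (0 : ℝ) (ψ p)).prodMk h4
    have h4 : HasDerivAt (fun s : ℝ => (Φ t (ψ p, v + s • u)).1)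
        (fderiv ℝ (Φ t) (ψ p, v) (0, u)).1 0 := by
      have h5 : HasFDerivAt (Φ t) (fderiv ℝ (Φ t) (ψ p, v)) (ψ p, v + (0 : ℝ) • u) := by
        rw [zero_smul, add_zero]; exact (h.flow.differentiable h.vf t _).hasFDerivAt
      exact (ContinuousLinearMap.fst ℝ E E).hasFDerivAt.comp_hasDerivAt (0 : ℝ)
        (h5.comp_hasDerivAt (0 : ℝ) h3)
    have h5 : (fun s : ℝ => G11 Φ ψ (p, t • w + s • b)) =ᶠ[𝓝 0]
        fun s : ℝ => (Φ t (ψ p, v + s • u)).1 := by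
      have hc : ContinuousAt (fun s : ℝ => ‖v + s • u‖) 0 := by fun_prop
      have hev : ∀ᶠ s : ℝ in 𝓝 0, ‖v + s • u‖ < 2 := by
        refine hc.eventually_lt_const ?_
        show ‖v + (0 : ℝ) • u‖ < 2
        rw [zero_smul, add_zero]; exact hw2
      filter_upwards [hev] with s hs
      have h6 : t • w + s • b = t • (w + s • (t⁻¹ • b)) := by
        rw [smul_add, smul_comm t s (t⁻¹ • b), smul_smul t t⁻¹ b, mul_inv_cancel₀ ht, one_smul]
      have h7 : fderiv ℝ ψ p (w + s • (t⁻¹ • b)) = v + s • u := by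
        rw [map_add, map_smul]
      have h8 : (ψ p, v + s • u) ∈ TSet S := by
        rw [← h7]; exact hp.mem_TSet h.sub hpΩ _
      show Geo Φ (ψ p) (fderiv ℝ ψ p (t • w + s • b)) 1 = _
      rw [h6, map_smul, h7, h.Geo_smul h8, mul_one]
      have h9 := (h.Geo_eq h8 one_pos (by linarith) t).1
      rw [h9, one_mul, inv_one, one_smul]
    have h6 := h2.unique (h4.congr_of_eventuallyEq h5)
    have h7 := hinj _ h6.symm
    have h8 := congrArg (fun x => t • x) h7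
    simp only [smul_smul, mul_inv_cancel₀ ht, one_smul, smul_zero] at h8
    exact h8
  intro b b' hbb
  have h1 : fderiv ℝ (G11 Φ ψ) (p, t • w) (0, b - b') = 0 := by
    have h2 : ((0 : N), b - b') = (0, b) - (0, b') := by simp
    have h3 : fderiv ℝ (G11 Φ ψ) (p, t • w) (0, b) = fderiv ℝ (G11 Φ ψ) (p, t • w) (0, b') := hbb
    rw [h2, map_sub, h3, sub_self]
  exact sub_eq_zero.1 (key _ h1)

/-- An abstract lemma: the image of the kernel under the derivative is transversal to the image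
condition makes a degeneracy isolated. -/
theorem inj_of_deriv {G : Type*} [NormedAddCommGroup G] [NormedSpace ℝ G]
    {D : ℝ → N →L[ℝ] G} {D' : N →L[ℝ] G} {t₀ : ℝ} (hD : HasDerivAt D D' t₀)
    (h : ∀ a b, D t₀ a = 0 → D' a + D t₀ b = 0 → D t₀ b = 0 ∧ a = 0) :
    ∀ᶠ t in 𝓝[≠] t₀, Function.Injective (D t) := by
  obtain ⟨C, hC⟩ := Submodule.exists_isCompl (LinearMap.ker (D t₀).toLinearMap)
  set Kr := LinearMap.ker (D t₀).toLinearMap with hKr
  let πl : N →ₗ[ℝ] N := Kr.subtype ∘ₗ Submodule.linearProjOfIsCompl Kr C hC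
  let π : N →L[ℝ] N := LinearMap.toContinuousLinearMap πl
  have hπK : ∀ b, D t₀ (π b) = 0 := fun b =>
    (Submodule.linearProjOfIsCompl Kr C hC b).2
  have hπ1 : ∀ b, D t₀ b = 0 → π b = b := by
    intro b hb
    exact congrArg Subtype.val (Submodule.linearProjOfIsCompl_apply_left hC (⟨b, hb⟩ : Kr))
  have hππ : ∀ b, π (π b) = π b := fun b => hπ1 _ (hπK b)
  let M : ℝ → N →L[ℝ] G := fun t => (slope D t₀ t) ∘L π + (D t) ∘L (ContinuousLinearMap.id ℝ N - π)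
  have hM : Tendsto M (𝓝[≠] t₀) (𝓝 (D' ∘L π + (D t₀) ∘L (ContinuousLinearMap.id ℝ N - π))) := by
    have h1 := hasDerivAt_iff_tendsto_slope.1 hD
    have h2 : Tendsto D (𝓝[≠] t₀) (𝓝 (D t₀)) := hD.continuousAt.mono_left nhdsWithin_le_nhds
    have c1 : Continuous fun L : N →L[ℝ] G => L ∘L π := by fun_prop
    have c2 : Continuous fun L : N →L[ℝ] G => L ∘L (ContinuousLinearMap.id ℝ N - π) := by fun_prop
    exact ((c1.tendsto _).comp h1).add ((c2.tendsto _).comp h2)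
  have hMinj : Function.Injective (D' ∘L π + (D t₀) ∘L (ContinuousLinearMap.id ℝ N - π)) := by
    refine (injective_iff_map_eq_zero _).2 fun b hb => ?_
    have h1 : D' (π b) + D t₀ (b - π b) = 0 := hb
    obtain ⟨h2, h3⟩ := h (π b) (b - π b) (hπK b) h1
    rw [h3, sub_zero] at h2
    rw [← hπ1 b h2, h3]
  have hev : ∀ᶠ t in 𝓝[≠] t₀, Function.Injective (M t) :=
    hM.eventually (ContinuousLinearMap.isOpen_injective.mem_nhds hMinj)
  filter_upwards [hev, self_mem_nhdsWithin] with t ht htne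
  refine (injective_iff_map_eq_zero _).2 fun b hb => ?_
  have hne : t - t₀ ≠ 0 := sub_ne_zero.2 htne
  have h1 : M t ((t - t₀) • π b + (b - π b)) = 0 := by
    show (slope D t₀ t) (π ((t - t₀) • π b + (b - π b)))
      + D t (((t - t₀) • π b + (b - π b)) - π ((t - t₀) • π b + (b - π b))) = 0
    have h2 : π ((t - t₀) • π b + (b - π b)) = (t - t₀) • π b := by
      rw [map_add, map_smul, map_sub, hππ, sub_self, add_zero]
    rw [h2, add_sub_cancel_left, map_smul]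
    have h3 : (t - t₀) • (slope D t₀ t) (π b) = D t (π b) := by
      rw [slope_def_module]
      show (t - t₀) • ((t - t₀)⁻¹ • (D t (π b) - D t₀ (π b))) = _
      rw [smul_smul, mul_inv_cancel₀ hne, one_smul, hπK, sub_zero]
    rw [h3, ← map_add, add_sub_cancel, hb]
  have h2 := ht (h1.trans (map_zero (M t)).symm)
  have h3 : π ((t - t₀) • π b + (b - π b)) = 0 := by rw [h2, map_zero]
  have h4 : (t - t₀) • π b = 0 := by
    rw [map_add, map_smul, map_sub, hππ, sub_self, add_zero] at h3; exact h3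
  have h5 : π b = 0 := (smul_eq_zero.1 h4).resolve_left hne
  rw [h5, smul_zero, zero_add, sub_zero] at h2
  exact h2

/-- The Jacobi fields of a geodesic which vanish at the initial point. -/
noncomputable def Jac (Φ : ℝ → E × E → E × E) (ψ : N → E) (p w : N) (t : ℝ) : N →L[ℝ] E :=
  (ContinuousLinearMap.fst ℝ E E) ∘L (fderiv ℝ (Φ t) (ψ p, fderiv ℝ ψ p w)) ∘L
    (ContinuousLinearMap.inr ℝ E E) ∘L (fderiv ℝ ψ p)

theorem hasDerivAt_Jac (h : GFlow F S A K K₂ Φ) (p w : N) (t : ℝ) :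
    ∃ D' : N →L[ℝ] E, HasDerivAt (Jac Φ ψ p w) D' t ∧
      ∀ b, D' b = (fderiv ℝ (Φ t) (ψ p, fderiv ℝ ψ p w) (0, fderiv ℝ ψ p b)).2 := by
  set w₀ : E × E := (ψ p, fderiv ℝ ψ p w) with hw₀
  have hJ : Differentiable ℝ (Jac Φ ψ p w) := by
    have h1 : Differentiable ℝ (fderiv ℝ (fun x : ℝ × (E × E) => Φ x.1 x.2)) :=
      (h.contDiff.fderiv_right (m := ∞) (by norm_num)).differentiable (by simp)
    have h2 : ∀ t, fderiv ℝ (Φ t) w₀ = (fderiv ℝ (fun x : ℝ × (E × E) => Φ x.1 x.2) (t, w₀)) ∘L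
        (ContinuousLinearMap.inr ℝ ℝ (E × E)) := by
      intro t
      have h3 : HasFDerivAt (fun x : ℝ × (E × E) => Φ x.1 x.2)
          (fderiv ℝ (fun x : ℝ × (E × E) => Φ x.1 x.2) (t, w₀)) (t, w₀) :=
        (h.contDiff.differentiable (by simp) (t, w₀)).hasFDerivAt
      have h4 : HasFDerivAt (fun w : E × E => ((t, w) : ℝ × (E × E)))
          (ContinuousLinearMap.inr ℝ ℝ (E × E)) w₀ := hasFDerivAt_prodMk_right t w₀
      exact (HasFDerivAt.comp w₀ (g := fun x : ℝ × (E × E) => Φ x.1 x.2) h3 h4).fderiv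
    have h3 : Differentiable ℝ fun t => fderiv ℝ (Φ t) w₀ := by
      have : (fun t => fderiv ℝ (Φ t) w₀) = fun t =>
          (fderiv ℝ (fun x : ℝ × (E × E) => Φ x.1 x.2) (t, w₀)) ∘L
            (ContinuousLinearMap.inr ℝ ℝ (E × E)) := funext h2
      rw [this]
      have h4 : Differentiable ℝ fun t : ℝ => ((t, w₀) : ℝ × (E × E)) := by fun_prop
      exact (h1.comp h4).clm_comp (differentiable_const _)
    exact (differentiable_const _).clm_comp (h3.clm_comp (differentiable_const _))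
  refine ⟨deriv (Jac Φ ψ p w) t, (hJ t).hasDerivAt, fun b => ?_⟩
  have h1 : HasDerivAt (fun t => Jac Φ ψ p w t b) (deriv (Jac Φ ψ p w) t b) t :=
    (hJ t).hasDerivAt.clm_apply (hasDerivAt_const t b) |>.congr_deriv (by simp)
  have h2 := h.flow.deriv_fderiv h.vf w₀ ((0 : E), fderiv ℝ ψ p b) t
  have h3 := (ContinuousLinearMap.fst ℝ E E).hasFDerivAt.comp_hasDerivAt t h2
  have h4 : HasDerivAt (fun t => Jac Φ ψ p w t b)
      (fderiv ℝ (XF A) (Φ t w₀) (fderiv ℝ (Φ t) w₀ (0, fderiv ℝ ψ p b))).1 t := h3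
  rw [h1.unique h4, fderiv_XF h]

theorem isolated_conj (hdim : Module.finrank ℝ E = Module.finrank ℝ F + Module.finrank ℝ N)
    (h : GFlow F S A K K₂ Φ) (hp : Patch S Ω ψ P W) {p : N} (hpΩ : p ∈ Ω)
    {w : N} (hw2 : ‖fderiv ℝ ψ p w‖ < 2) (t₀ : ℝ) :
    ∀ᶠ t in 𝓝[≠] t₀, Function.Injective (Jac Φ ψ p w t) := by
  obtain ⟨D', hD', hD⟩ := hasDerivAt_Jac (ψ := ψ) h p w t₀
  have hc2 : Patch (T2 S) _ (TP ψ) _ _ := (hp.tangent h.sub).inter isOpen_lt2
  have hz : (p, w) ∈ {z : N × N | z.1 ∈ Ω} ∩ TP ψ ⁻¹' {w | ‖w.2‖ < 2} := ⟨hpΩ, hw2⟩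
  have hiso : ∀ b b', ⟪Jac Φ ψ p w t₀ b, D' b'⟫_ℝ = ⟪Jac Φ ψ p w t₀ b', D' b⟫_ℝ := by
    intro b b'
    have h1 := om_flow h (by omega) hc2 hz ((0 : N), b) ((0 : N), b') t₀
    have h2 : ∀ c : N, fderiv ℝ (TP ψ) (p, w) (0, c) = (0, fderiv ℝ ψ p c) := by
      intro c
      rw [hp.fderiv_TP (z := (p, w)) hpΩ]
      simp
    rw [h2, h2] at h1
    have h3 : om ((0 : E), fderiv ℝ ψ p b) ((0 : E), fderiv ℝ ψ p b') = 0 := by
      rw [om_apply]; simp
    rw [h3, om_apply, sub_eq_zero] at h1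
    rw [hD, hD]
    exact h1
  refine inj_of_deriv hD' fun a b ha hab => ?_
  have h1 : ⟪Jac Φ ψ p w t₀ b, D' a⟫_ℝ = 0 := by
    rw [hiso, ha, inner_zero_left]
  have h2 : D' a = 0 ∧ Jac Φ ψ p w t₀ b = 0 := by
    have h3 : D' a = -(Jac Φ ψ p w t₀ b) := eq_neg_of_add_eq_zero_left hab
    rw [h3, inner_neg_right, neg_eq_zero] at h1
    have h4 := inner_self_eq_zero.1 h1
    exact ⟨by rw [h3, h4, neg_zero], h4⟩
  refine ⟨h2.2, ?_⟩
  have h3 : fderiv ℝ (Φ t₀) (ψ p, fderiv ℝ ψ p w) (0, fderiv ℝ ψ p a) = 0 :=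
    Prod.ext ha (by rw [← hD]; exact h2.1)
  have h4 := inj_fderiv h t₀ _ (h3.trans (map_zero _).symm)
  have h5 : fderiv ℝ ψ p a = 0 := congrArg Prod.snd h4
  exact Patch.inj hp hpΩ (h5.trans (map_zero _).symm)

/-- Nondegenerate times are dense on every geodesic. -/
theorem exists_nondeg (hdim : Module.finrank ℝ E = Module.finrank ℝ F + Module.finrank ℝ N)
    (h : GFlow F S A K K₂ Φ) (hp : Patch S Ω ψ P W) {p : N} (hpΩ : p ∈ Ω)
    {w : N} (hw2 : ‖fderiv ℝ ψ p w‖ < 2) {I : Set ℝ} (hI : IsOpen I)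
    (hne : I.Nonempty) : ∃ t ∈ I, t ≠ 0 ∧ Nondeg Φ ψ p (t • w) := by
  obtain ⟨t₀, ht₀⟩ := hne
  have h1 := isolated_conj hdim h hp hpΩ hw2 t₀
  have h2 : ∀ᶠ t in 𝓝[≠] t₀, t ∈ I := mem_nhdsWithin_of_mem_nhds (hI.mem_nhds ht₀)
  have h3 : ∀ᶠ t in 𝓝[≠] t₀, t ≠ 0 := by
    rcases eq_or_ne t₀ 0 with h0 | h0
    · rw [h0]; exact self_mem_nhdsWithin
    · exact mem_nhdsWithin_of_mem_nhds (isOpen_ne.mem_nhds h0)
  obtain ⟨t, h4, h5, h6⟩ := (h1.and (h2.and h3)).exists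
  refine ⟨t, h5, h6, nondeg_of h hp hpΩ hw2 h6 fun b hb => ?_⟩
  exact h4 (show Jac Φ ψ p w t b = Jac Φ ψ p w t 0 by rw [map_zero]; exact hb)

end Pool.Agent.H59.ND
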