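import Pool.Agent.H59.ND.Lead

/-!
# Transfer of meagre sets from patches to `S × S`; orbit closures
-/

set_option autoImplicit false

open scoped InnerProductSpace Topology ContDiff
open Set Filter

namespace Pool.Agent.H59.ND

open Pool.Agent.H91.GE Pool.Agent.H59.LV

theorem isMeagre_of_local {X : Type*} [TopologicalSpace X] [SecondCountableTopology X] {B : Set X}
    (h : ∀ x, ∃ D ∈ 𝓝 x, IsMeagre (B ∩ D)) : IsMeagre B := by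
  choose D hD hm using h
  obtain ⟨t, htc, hcov⟩ := TopologicalSpace.countable_cover_nhds hD
  have h1 : IsMeagre (⋃ x ∈ t, B ∩ D x) := by
    have := htc.to_subtype
    rw [biUnion_eq_iUnion]
    exact isMeagre_iUnion fun x => hm x
  refine h1.mono fun x hx => ?_
  have h2 : x ∈ ⋃ x ∈ t, D x := by rw [hcov]; exact mem_univ x
  obtain ⟨y, hy, hxy⟩ := mem_iUnion₂.1 h2
  exact mem_biUnion hy ⟨hx, hxy⟩

theorem isMeagre_preimage_inter {X Y : Type*} [TopologicalSpace X] [TopologicalSpace Y] {f : X → Y}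
    (hf : Continuous f) {D : Set X} (hD : IsOpen D) (ho : ∀ V ⊆ D, IsOpen V → IsOpen (f '' V))
    {M : Set Y} (hM : IsMeagre M) : IsMeagre (f ⁻¹' M ∩ D) := by
  have h1 : IsMeagre ((fun x : D => f x) ⁻¹' M) := by
    refine hM.preimage_of_isOpenMap (hf.comp continuous_subtype_val) fun U hU => ?_
    have h2 : IsOpen (Subtype.val '' U) := hD.isOpenEmbedding_subtypeVal.isOpenMap U hU
    have h3 := ho _ (by rintro _ ⟨x, -, rfl⟩; exact x.2) h2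
    rw [image_image] at h3
    exact h3
  refine h1.image_val.mono ?_
  rintro x ⟨hx1, hx2⟩
  exact ⟨⟨x, hx2⟩, hx1, rfl⟩

variable {E F N : Type*} [NormedAddCommGroup E] [InnerProductSpace ℝ E] [FiniteDimensional ℝ E]
  [NormedAddCommGroup F] [InnerProductSpace ℝ F] [FiniteDimensional ℝ F]
  [NormedAddCommGroup N] [NormedSpace ℝ N] [FiniteDimensional ℝ N]
  {S : Set E} {A : E × E → E} {K K₂ : NNReal} {Φ : ℝ → E × E → E × E}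

theorem meagre_transfer (hdim : Module.finrank ℝ E = Module.finrank ℝ F + Module.finrank ℝ N)
    (hsub : IsSub F S) (Q : E → E → Prop)
    (hQ : ∀ (Ω₁ Ω₂ : Set N) (ψ₁ ψ₂ : N → E) (P₁ P₂ : E →L[ℝ] N) (W₁ W₂ : Set E),
      Patch S Ω₁ ψ₁ P₁ W₁ → Patch S Ω₂ ψ₂ P₂ W₂ →
      IsMeagre {x : N × N | x.1 ∈ Ω₁ ∧ x.2 ∈ Ω₂ ∧ ¬ Q (ψ₁ x.1) (ψ₂ x.2)}) :
    IsMeagre {x : S × S | ¬ Q x.1 x.2} := by
  refine isMeagre_of_local fun x => ?_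
  obtain ⟨⟨x₁, hx₁⟩, ⟨x₂, hx₂⟩⟩ := x
  obtain ⟨U₁, hU₁, f₁, hf₁⟩ := hsub x₁ hx₁
  obtain ⟨U₂, hU₂, f₂, hf₂⟩ := hsub x₂ hx₂
  obtain ⟨Ω₁, ψ₁, P₁, W₁, hp₁, hW₁⟩ := exists_patch (N := N) hdim hf₁ hU₁
  obtain ⟨Ω₂, ψ₂, P₂, W₂, hp₂, hW₂⟩ := exists_patch (N := N) hdim hf₂ hU₂
  set D : Set (S × S) := {x | (x.1 : E) ∈ W₁ ∧ (x.2 : E) ∈ W₂} with hD
  have hDo : IsOpen D := (hp₁.V_open.preimage (by fun_prop)).inter
    (hp₂.V_open.preimage (by fun_prop))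
  refine ⟨D, hDo.mem_nhds ⟨hW₁, hW₂⟩, ?_⟩
  let f : S × S → N × N := fun x => (P₁ x.1, P₂ x.2)
  have hf : Continuous f := by
    refine (P₁.continuous.comp ?_).prodMk (P₂.continuous.comp ?_) <;> fun_prop
  have ho : ∀ V ⊆ D, IsOpen V → IsOpen (f '' V) := by
    intro V hVD hV
    have hind : Topology.IsInducing (Prod.map Subtype.val Subtype.val : S × S → E × E) :=
      Topology.IsInducing.subtypeVal.prodMap Topology.IsInducing.subtypeVal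
    obtain ⟨V', hV', rfl⟩ := hind.isOpen_iff.1 hV
    have h1 : ContinuousOn (fun y : N × N => (ψ₁ y.1, ψ₂ y.2)) (Ω₁ ×ˢ Ω₂) :=
      (hp₁.smooth.continuousOn.comp continuousOn_fst fun x hx => hx.1).prodMk
        (hp₂.smooth.continuousOn.comp continuousOn_snd fun x hx => hx.2)
    have h2 := h1.isOpen_inter_preimage (hp₁.isOpen.prod hp₂.isOpen) hV'
    convert h2 using 1
    ext y
    constructor
    · rintro ⟨x, hx, rfl⟩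
      obtain ⟨g1, g2⟩ := hp₁.right x.1 x.1.2 (hVD hx).1
      obtain ⟨g3, g4⟩ := hp₂.right x.2 x.2.2 (hVD hx).2
      refine ⟨⟨g1, g3⟩, ?_⟩
      show (ψ₁ (P₁ x.1), ψ₂ (P₂ x.2)) ∈ V'
      rw [g2, g4]; exact hx
    · rintro ⟨⟨g1, g2⟩, g3⟩
      refine ⟨(⟨ψ₁ y.1, hp₁.mem _ g1⟩, ⟨ψ₂ y.2, hp₂.mem _ g2⟩), g3, ?_⟩
      exact Prod.ext (hp₁.left _ g1) (hp₂.left _ g2)
  refine (isMeagre_preimage_inter hf hDo ho (hQ Ω₁ Ω₂ ψ₁ ψ₂ P₁ P₂ W₁ W₂ hp₁ hp₂)).mono ?_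
  rintro x ⟨hx, hxD⟩
  obtain ⟨g1, g2⟩ := hp₁.right x.1 x.1.2 hxD.1
  obtain ⟨g3, g4⟩ := hp₂.right x.2 x.2.2 hxD.2
  refine ⟨⟨g1, g3, ?_⟩, hxD⟩
  show ¬ Q (ψ₁ (P₁ x.1)) (ψ₂ (P₂ x.2))
  rw [g2, g4]; exact hx

/-! ### Dense orbits -/

/-- In a region where an orbit is dense, everything leads to everything. -/
theorem leads_of_dense (h : GFlow F S A K K₂ Φ)
    (hdim : Module.finrank ℝ F ≤ Module.finrank ℝ E) {O : Set (E × E)} {w₀ : E × E}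
    (hw₀ : w₀ ∈ UT S) (hd : O ∩ UT S ⊆ closure (range fun t => Φ t w₀)) {w₁ w₂ : E × E}
    (h1 : w₁ ∈ O ∩ UT S) (h2 : w₂ ∈ O ∩ UT S) : Leads Φ S w₁ w₂ := by
  intro U V hU hV hw₁U hw₂V T
  obtain ⟨t, -, ξ, hξU, hξ, hξV⟩ := trans_of_dense h hw₀ hd U V hU hV ⟨w₁, hw₁U, h1.1, h1.2⟩
    ⟨w₂, hw₂V, h2.1, h2.2⟩
  have hc : Continuous (Φ t) := (h.flow.differentiable h.vf t).continuous
  have hU' : U ∩ Φ t ⁻¹' V ∈ 𝓝 ξ := (hU.inter (hV.preimage hc)).mem_nhds ⟨hξU, hξV⟩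
  obtain ⟨ξ', g1, g2, g3, s, g4, g5⟩ := Pool.Agent.H59.LV.nonwandering_speed h hdim hξ.1
    (by rw [hξ.2]; norm_num) (by rw [← norm_ne_zero_iff, hξ.2]; exact one_ne_zero) hU' (T - t)
  refine ⟨t + s, by linarith, ξ', g2, g3.trans hξ.2, g1.1, ?_⟩
  rw [h.flow.add h.vf]
  exact g5.2

/-- A set of pairs of directions contained in a finite union of graphs of linear maps, projectively,
cannot be everything: orbit closures have empty interior. -/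
theorem not_dense (hdim : Module.finrank ℝ E = Module.finrank ℝ F + Module.finrank ℝ N)
    (hN : 1 < Module.finrank ℝ N) (h : GFlow F S A K K₂ Φ)
    (hmain : IsMeagre {x : S × S | ¬ ∃ L : Set (E →L[ℝ] E), L.Finite ∧
      ∀ u v, Leads Φ S (x.1, u) (x.2, v) → ∃ l ∈ L, ∃ c : ℝ, v = c • l u})
    {O : Set (E × E)} (hO : IsOpen O) (hne : (O ∩ UT S).Nonempty) {w₀ : E × E} (hw₀ : w₀ ∈ UT S) :
    ¬ O ∩ UT S ⊆ closure (range fun t => Φ t w₀) := by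
  intro hd
  obtain ⟨w, hwO, hw⟩ := hne
  have hwS : w.1 ∈ S := fst_mem_TSet hw.1
  obtain ⟨U, hU, f, hf⟩ := h.sub w.1 hwS
  obtain ⟨Ω, ψ, P, W, hp, hW⟩ := exists_patch (N := N) hdim hf hU
  obtain ⟨Ω₀, A₀, hΩ₀, hA₀, ⟨p₀, hp₀⟩, hAne, hg⟩ := exists_region h hp hO hwO hw hW
  -- a residual pair
  haveI : CompactSpace S := isCompact_iff_compactSpace.1 h.compact
  set D : Set S := {x | (x : E) ∈ W ∧ P x ∈ Ω₀} with hD
  have hDo : IsOpen D := (hp.V_open.preimage continuous_subtype_val).inter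
    (hΩ₀.preimage (P.continuous.comp continuous_subtype_val))
  have hp₀Ω : p₀ ∈ Ω := (hg p₀ hp₀ _ hAne.some_mem).1
  have hDne : (⟨ψ p₀, hp.mem _ hp₀Ω⟩ : S) ∈ D :=
    ⟨hp.maps _ hp₀Ω, by
      show P (ψ p₀) ∈ Ω₀
      rw [hp.left _ hp₀Ω]; exact hp₀⟩
  have h1 := not_isMeagre_of_isOpen (hDo.prod hDo) ⟨(⟨ψ p₀, hp.mem _ hp₀Ω⟩, ⟨ψ p₀, hp.mem _ hp₀Ω⟩),
    hDne, hDne⟩
  obtain ⟨x, hx, hxb⟩ : ∃ x ∈ D ×ˢ D, ∃ L : Set (E →L[ℝ] E), L.Finite ∧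
      ∀ u v, Leads Φ S (x.1, u) (x.2, v) → ∃ l ∈ L, ∃ c : ℝ, v = c • l u := by
    by_contra hcon
    push Not at hcon
    refine h1 (hmain.mono fun x hx => ?_)
    rintro ⟨L, hL1, hL2⟩
    obtain ⟨u, v, hl, hno⟩ := hcon x hx L hL1
    obtain ⟨l, hl1, c, hc⟩ := hL2 u v hl
    exact hno l hl1 c hc
  obtain ⟨L, hLf, hL⟩ := hxb
  obtain ⟨⟨x₁, hx₁S⟩, ⟨x₂, hx₂S⟩⟩ := x
  obtain ⟨⟨hx₁W, hx₁Ω⟩, hx₂W, hx₂Ω⟩ := hx
  simp only at hx₁W hx₁Ω hx₂W hx₂Ω hL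
  obtain ⟨hq1, hq1'⟩ := hp.right x₁ hx₁S hx₁W
  obtain ⟨hq2, hq2'⟩ := hp.right x₂ hx₂S hx₂W
  obtain ⟨a, ha⟩ := hAne
  have hUT : ∀ q ∈ Ω, ∀ b : N, b ≠ 0 → (ψ q, ‖fderiv ℝ ψ q b‖⁻¹ • fderiv ℝ ψ q b) ∈ UT S := by
    intro q hq b hb
    have h0 : ‖fderiv ℝ ψ q b‖ ≠ 0 := norm_ne_zero_iff.2 fun h0 =>
      hb (Patch.inj hp hq (h0.trans (map_zero _).symm))
    refine ⟨scale_TSet (hp.mem_TSet h.sub hq b) h.sub _, ?_⟩
    show ‖‖fderiv ℝ ψ q b‖⁻¹ • fderiv ℝ ψ q b‖ = 1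
    rw [norm_smul, norm_inv, norm_norm, inv_mul_cancel₀ h0]
  obtain ⟨-, ha0, haO⟩ := hg _ hx₁Ω a ha
  set u := ‖fderiv ℝ ψ (P x₁) a‖⁻¹ • fderiv ℝ ψ (P x₁) a with hu
  -- `A₀` is contained in a finite union of lines
  have hcov : A₀ ⊆ ⋃ l ∈ L, range fun c : ℝ => c • P (l u) := by
    intro b hb
    obtain ⟨-, hb0, hbO⟩ := hg _ hx₂Ω b hb
    have hn0 : ‖fderiv ℝ ψ (P x₂) b‖ ≠ 0 := norm_ne_zero_iff.2 fun h0 =>
      hb0 (Patch.inj hp hq2 (h0.trans (map_zero _).symm))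
    have h3 := leads_of_dense h (by omega) hw₀ hd ⟨haO, hUT _ hq1 a ha0⟩ ⟨hbO, hUT _ hq2 b hb0⟩
    rw [hq1', hq2'] at h3
    obtain ⟨l, hl, c, hc⟩ := hL _ _ h3
    refine mem_biUnion hl ⟨‖fderiv ℝ ψ (P x₂) b‖ * c, ?_⟩
    show (‖fderiv ℝ ψ (P x₂) b‖ * c) • P (l u) = b
    rw [mul_smul, ← map_smul, ← hc, map_smul, hp.κ_fderiv hq2, smul_smul, mul_inv_cancel₀ hn0,
      one_smul]
  have h4 : IsMeagre (⋃ l ∈ L, range fun c : ℝ => c • P (l u)) := by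
    have := hLf.countable.to_subtype
    rw [biUnion_eq_iUnion]
    refine isMeagre_iUnion fun l => isMeagre_range hN ?_
    exact contDiff_id.smul contDiff_const
  exact not_isMeagre_of_isOpen hA₀ ⟨a, ha⟩ (h4.mono hcov)

end Pool.Agent.H59.ND
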